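import Pool.Agent.Lib.MP_17a322_nt.MG.A1

/-!
The product with a projective space: lower bound for the dimension of the tangent spaces.
-/

set_option linter.unusedSectionVars false

universe u

namespace Pool.Agent.Lib.MP_17a322_nt.MG

open MvPolynomial
open Pool.Agent.Lib.MP_17a322_nt.EQ

open Classical in
/-- extension by zero -/
private noncomputable def A2_ext {Ω : Type u} [Field Ω] {Λ : Type} (l₀ : Λ) (c : {l : Λ // l ≠ l₀} → Ω) (l : Λ) : Ω :=
  if h : l = l₀ then 0 else c ⟨l, h⟩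

private theorem A2_ext_self {Ω : Type u} [Field Ω] {Λ : Type} (l₀ : Λ) (c : {l : Λ // l ≠ l₀} → Ω) :
    A2_ext l₀ c l₀ = 0 := dif_pos rfl

private theorem A2_ext_ne {Ω : Type u} [Field Ω] {Λ : Type} (l₀ : Λ) (c : {l : Λ // l ≠ l₀} → Ω) (l : {l : Λ // l ≠ l₀}) :
    A2_ext l₀ c l = c l := dif_neg l.2

private theorem A2_ext_add {Ω : Type u} [Field Ω] {Λ : Type} (l₀ : Λ) (c c' : {l : Λ // l ≠ l₀} → Ω) (l : Λ) :
    A2_ext l₀ (c + c') l = A2_ext l₀ c l + A2_ext l₀ c' l := by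
  unfold A2_ext
  split_ifs with h
  · rw [add_zero]
  · rfl

private theorem A2_ext_smul {Ω : Type u} [Field Ω] {Λ : Type} (l₀ : Λ) (a : Ω) (c : {l : Λ // l ≠ l₀} → Ω) (l : Λ) :
    A2_ext l₀ (a • c) l = a * A2_ext l₀ c l := by
  unfold A2_ext
  split_ifs with h
  · rw [mul_zero]
  · rfl

/-- The dimension of the tangent spaces of the product is at least `n + |Λ|`.

PROOF: as `pJ_lower` in `EQ/G5d.lean`, with `Λ` for `Bool`, `r + 1 = |Λ|`. Only the linear map `φ` is different: let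
`q₀`, `t₀` be the generic point over the fraction field `Ω` of `MvPolynomial Λ (MvPolynomial ι K ⧸ J)`; all `t₀ l` and
some `q₀ i` are nonzero. `p (i, l) ≠ 0` for some `(i, l)` gives an `l₀ : Λ`. The map
`Tan J q₀ × (Λ' → Ω) → Tan (qJ Λ J) (sg q₀ t₀)`, `Λ' = {l // l ≠ l₀}`,
`(y, c) ↦ y ⊗ t₀ + q₀ ⊗ (c extended by 0 at l₀)` is injective: at `(i, l₀)` its value is `y i * t₀ l₀`, so `y = 0`, and
then `q₀ i * c l = 0`. The dimension of the left side is `n + 1 + (|Λ| - 1)`. -/
theorem qJ_lower {K : Type u} [Field K] {ι Λ : Type} [Fintype ι] [Fintype Λ] {J : Ideal (MvPolynomial ι K)}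
    {L : Type u} [Field L] [Algebra K L] {n : ℕ} (hJ : Smooth J n) {p : ι × Λ → L} (hp : IsPt (qJ Λ J) p) :
    n + Fintype.card Λ ≤ Module.finrank L (Tan (qJ Λ J) p) := by
  classical
  have hprime := hJ.prime
  have hdom : IsDomain (MvPolynomial ι K ⧸ J) := Ideal.Quotient.isDomain J
  have hinj : Function.Injective (algebraMap (MvPolynomial Λ (MvPolynomial ι K ⧸ J))
      (FractionRing (MvPolynomial Λ (MvPolynomial ι K ⧸ J)))) :=
    IsFractionRing.injective (MvPolynomial Λ (MvPolynomial ι K ⧸ J)) (FractionRing (MvPolynomial Λ (MvPolynomial ι K ⧸ J)))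
  set am := algebraMap (MvPolynomial Λ (MvPolynomial ι K ⧸ J))
      (FractionRing (MvPolynomial Λ (MvPolynomial ι K ⧸ J))) with ham
  set q₀ : ι → FractionRing (MvPolynomial Λ (MvPolynomial ι K ⧸ J)) := fun i => am (C (gen J i)) with hq₀
  set t₀ : Λ → FractionRing (MvPolynomial Λ (MvPolynomial ι K ⧸ J)) := fun j => am (X j) with ht₀
  have hsg : sg q₀ t₀ = fun z : ι × Λ => am (C (gen J z.1) * X z.2) := by
    funext z
    rw [map_mul]
    rfl
  have h₀ : ∀ F : MvPolynomial (ι × Λ) K, aeval (sg q₀ t₀) F = 0 → F ∈ qJ Λ J := by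
    intro F hF
    rw [qJ, mem_gJ]
    have h1 := aeval_algebraMap_apply (FractionRing (MvPolynomial Λ (MvPolynomial ι K ⧸ J)))
      (fun z : ι × Λ => (C (gen J z.1) * X z.2 : MvPolynomial Λ (MvPolynomial ι K ⧸ J))) F
    rw [hsg] at hF
    apply hinj
    rw [map_zero]
    exact h1.symm.trans hF
  have hq : ∀ F ∈ J, aeval q₀ F = 0 := by
    intro F hF
    have h1 := aeval_algebraMap_apply (FractionRing (MvPolynomial Λ (MvPolynomial ι K ⧸ J)))
      (fun i : ι => (C (gen J i) : MvPolynomial Λ (MvPolynomial ι K ⧸ J))) F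
    rw [qgen_zero F hF, map_zero] at h1
    exact h1
  have hq0 : q₀ ≠ 0 := by
    intro h
    apply hp.1
    funext z
    have h1 : (C (gen J z.1) : MvPolynomial Λ (MvPolynomial ι K ⧸ J)) = 0 := by
      apply hinj
      rw [map_zero]
      exact congrFun h z.1
    have h2 : (X z : MvPolynomial (ι × Λ) K) ∈ qJ Λ J := by
      rw [qJ, mem_gJ, aeval_X, h1, zero_mul]
    have h3 := hp.2 _ h2
    rw [aeval_X] at h3
    exact h3
  obtain ⟨l₀⟩ : Nonempty Λ := by
    by_contra hcon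
    rw [not_nonempty_iff] at hcon
    exact hp.1 (funext fun z => hcon.elim z.2)
  have htan := hJ.dim _ q₀ ⟨hq0, hq⟩
  refine le_trans ?_ (tan_lower h₀ hp.2)
  let ψ : (ι → FractionRing (MvPolynomial Λ (MvPolynomial ι K ⧸ J))) ×
      ({l : Λ // l ≠ l₀} → FractionRing (MvPolynomial Λ (MvPolynomial ι K ⧸ J)))
      →ₗ[FractionRing (MvPolynomial Λ (MvPolynomial ι K ⧸ J))]
      (ι × Λ → FractionRing (MvPolynomial Λ (MvPolynomial ι K ⧸ J))) :=
    { toFun := fun yc z => yc.1 z.1 * t₀ z.2 + q₀ z.1 * A2_ext l₀ yc.2 z.2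
      map_add' := by
        intro a b
        funext z
        have e : A2_ext l₀ (a + b).2 z.2 = A2_ext l₀ a.2 z.2 + A2_ext l₀ b.2 z.2 := A2_ext_add l₀ a.2 b.2 z.2
        rw [e, Pi.add_apply, Prod.fst_add, Pi.add_apply]
        ring
      map_smul' := by
        intro a b
        funext z
        have e : A2_ext l₀ (a • b).2 z.2 = a * A2_ext l₀ b.2 z.2 := A2_ext_smul l₀ a b.2 z.2
        rw [e, Pi.smul_apply, Prod.smul_fst, Pi.smul_apply, smul_eq_mul, smul_eq_mul, RingHom.id_apply]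
        ring }
  let φ : Tan J q₀ × ({l : Λ // l ≠ l₀} → FractionRing (MvPolynomial Λ (MvPolynomial ι K ⧸ J)))
      →ₗ[FractionRing (MvPolynomial Λ (MvPolynomial ι K ⧸ J))]
      Tan (qJ Λ J) (sg q₀ t₀) :=
    LinearMap.codRestrict (Tan (qJ Λ J) (sg q₀ t₀)) (ψ.comp (LinearMap.prodMap (Tan J q₀).subtype LinearMap.id)) (by
      rintro ⟨y, c⟩
      exact qJ_tan hq y.2 t₀ (A2_ext l₀ c))
  have hφ : Function.Injective φ := by
    rw [injective_iff_map_eq_zero]
    rintro ⟨y, c⟩ h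
    have h1 : ψ ((y : ι → FractionRing (MvPolynomial Λ (MvPolynomial ι K ⧸ J))), c) = 0 := congrArg Subtype.val h
    have ht : t₀ l₀ ≠ 0 := by
      intro h2
      have h3 : (X l₀ : MvPolynomial Λ (MvPolynomial ι K ⧸ J)) = 0 := by
        apply hinj
        rw [map_zero]
        exact h2
      exact X_ne_zero l₀ h3
    have hy : (y : ι → FractionRing (MvPolynomial Λ (MvPolynomial ι K ⧸ J))) = 0 := by
      funext i
      have h2 := congrFun h1 (i, l₀)
      have h3 : (y : ι → FractionRing (MvPolynomial Λ (MvPolynomial ι K ⧸ J))) i * t₀ l₀ + q₀ i * A2_ext l₀ c l₀ = 0 := h2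
      rw [A2_ext_self, mul_zero, add_zero] at h3
      exact (mul_eq_zero.1 h3).resolve_right ht
    obtain ⟨i, hi⟩ : ∃ i, q₀ i ≠ 0 := by
      by_contra hcon
      push Not at hcon
      exact hq0 (funext hcon)
    have hc : c = 0 := by
      funext l
      have h2 := congrFun h1 (i, (l : Λ))
      have h3 : (y : ι → FractionRing (MvPolynomial Λ (MvPolynomial ι K ⧸ J))) i * t₀ l + q₀ i * A2_ext l₀ c l = 0 := h2
      rw [hy, Pi.zero_apply, zero_mul, zero_add, A2_ext_ne] at h3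
      exact (mul_eq_zero.1 h3).resolve_left hi
    rw [hc, Prod.mk_eq_zero]
    exact ⟨Subtype.ext hy, rfl⟩
  have h2 := LinearMap.finrank_le_finrank_of_injective hφ
  rw [Module.finrank_prod, htan, Module.finrank_fintype_fun_eq_card] at h2
  have h3 : Fintype.card {l : Λ // l ≠ l₀} = Fintype.card Λ - 1 := by
    rw [Fintype.card_subtype_compl, Fintype.card_subtype_eq]
  have h4 : 0 < Fintype.card Λ := Fintype.card_pos_iff.2 ⟨l₀⟩
  rw [h3] at h2
  omega

end Pool.Agent.Lib.MP_17a322_nt.MG
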