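import Pool.Agent.Lib.MP_17a322_nt.MG.A2
import Pool.Agent.Lib.MP_17a322_nt.EQ.G4a

/-!
The product with a projective space is smooth.
-/

set_option linter.unusedSectionVars false

universe u

namespace Pool.Agent.Lib.MP_17a322_nt.MG

open MvPolynomial
open Pool.Agent.Lib.MP_17a322_nt.EQ

/-- The dimension of the tangent spaces of the product is at most `n + |Λ|`.

PROOF: `p (i₁, l₁) ≠ 0`. By `gJ_pt` (with `x = fun i => C (gen J i)`, `w = X`, hypothesis `hx` is `qgen_zero`) the vector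
`q = fun i => p (i, l₁)` is a point of `J` and `p (i, l) = q i * W l`, `W l₁ = 1`. By `gJ_tan` the linear map
`y ↦ (fun i => y (i, l₁), fun l : {l // l ≠ l₁} => y (i₁, l))` on `Tan (qJ Λ J) p` has its first component in `Tan J q`, and
it is injective: if both components of `y` are zero, then `y (i, l) = q i * ω l`, `ω l₁ = 0` and
`0 = y (i₁, l) = q i₁ * ω l`, so `ω = 0` and `y = 0`. The dimension of the target is
`n + 1 + (|Λ| - 1)`, `Fintype.card {l // l ≠ l₁} = |Λ| - 1`. -/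
theorem qJ_upper {K : Type u} [Field K] {ι Λ : Type} [Fintype ι] [Fintype Λ] {J : Ideal (MvPolynomial ι K)}
    {L : Type u} [Field L] [Algebra K L] {n : ℕ} (hJ : Smooth J n) {p : ι × Λ → L} (hp : IsPt (qJ Λ J) p) :
    Module.finrank L (Tan (qJ Λ J) p) ≤ n + Fintype.card Λ := by
  classical
  obtain ⟨i₁, l₁, h₁⟩ : ∃ i l, p (i, l) ≠ 0 := by
    by_contra hcon
    push Not at hcon
    exact hp.1 (funext fun z => hcon z.1 z.2)
  obtain ⟨hq, W, hW, hpW⟩ := gJ_pt hJ.homog qgen_zero hp ⟨i₁, h₁⟩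
  have htan : ∀ y ∈ Tan (qJ Λ J) p, (fun i => y (i, l₁)) ∈ Tan J (fun i => p (i, l₁)) ∧
      ∃ ω : Λ → L, ω l₁ = 0 ∧ ∀ i l, y (i, l) = y (i, l₁) * W l + p (i, l₁) * ω l :=
    fun y hy => gJ_tan hJ.homog qgen_zero ⟨i₁, h₁⟩ hW hpW hy
  let φ : Tan (qJ Λ J) p →ₗ[L] Tan J (fun i => p (i, l₁)) × ({l : Λ // l ≠ l₁} → L) :=
    LinearMap.prod
      (LinearMap.codRestrict (Tan J (fun i => p (i, l₁)))
        ((LinearMap.funLeft L L (fun i : ι => (i, l₁))).comp (Tan (qJ Λ J) p).subtype)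
        (fun y => (htan y.1 y.2).1))
      ((LinearMap.funLeft L L (fun l : {l : Λ // l ≠ l₁} => (i₁, (l : Λ)))).comp (Tan (qJ Λ J) p).subtype)
  have hφ : Function.Injective φ := by
    rw [injective_iff_map_eq_zero]
    rintro ⟨y, hy⟩ h
    obtain ⟨-, ω, hω, hyω⟩ := htan y hy
    have h2 : ∀ i, y (i, l₁) = 0 := fun i => congrFun (congrArg Subtype.val (congrArg Prod.fst h)) i
    have h3 : ∀ l, l ≠ l₁ → y (i₁, l) = 0 := fun l hl => congrFun (congrArg Prod.snd h) ⟨l, hl⟩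
    have h4 : ∀ l, ω l = 0 := by
      intro l
      by_cases hl : l = l₁
      · rw [hl, hω]
      · have h5 := hyω i₁ l
        rw [h3 l hl, h2 i₁, zero_mul, zero_add] at h5
        exact (mul_eq_zero.1 h5.symm).resolve_left h₁
    refine Subtype.ext (funext fun z => ?_)
    have h6 := hyω z.1 z.2
    rw [h2, h4, zero_mul, mul_zero, add_zero] at h6
    exact h6
  have h2 := LinearMap.finrank_le_finrank_of_injective hφ
  have h3 : Fintype.card {l : Λ // l ≠ l₁} = Fintype.card Λ - 1 := by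
    have h4 := Fintype.card_subtype_compl (fun l : Λ => l = l₁)
    rw [Fintype.card_subtype_eq] at h4
    exact h4
  have h4 : 0 < Fintype.card Λ := Fintype.card_pos_iff.2 ⟨l₁⟩
  rw [Module.finrank_prod, hJ.dim L _ hq, Module.finrank_fintype_fun_eq_card, h3] at h2
  omega

/-- PROOF: `qJ_prime`, `qJ_homog`, `qJ_lower`, `qJ_upper`. -/
theorem qJ_smooth {K : Type u} [Field K] {ι Λ : Type} [Fintype ι] [Fintype Λ] {J : Ideal (MvPolynomial ι K)}
    {n r : ℕ} (hJ : Smooth J n) (hΛ : Fintype.card Λ = r + 1) : Smooth (qJ Λ J) (n + r) := by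
  refine ⟨qJ_prime hJ.prime, qJ_homog, fun L _ _ p hp => ?_⟩
  have h1 := qJ_lower hJ hp
  have h2 := qJ_upper hJ hp
  omega

end Pool.Agent.Lib.MP_17a322_nt.MG
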