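import Mathlib

/-!
The minors of the tangent space of a product with a projective space.
-/

namespace Pool.Agent.Lib.MP_17a322_nt.MG

variable {F : Type*} [Field F] {ι : Type} {n r : ℕ}

/-- The vectors `q ⊗ e_j` and `y_(a+1) ⊗ t`. -/
def fam (q : ι → F) (y : Fin (n + 1) → ι → F) (t : Fin (r + 1) → F) :
    Fin (r + 1) ⊕ Fin n → ι × Fin (r + 1) → F :=
  Sum.elim (fun j z => q z.1 * if z.2 = j then 1 else 0) fun a z => y a.succ z.1 * t z.2

/-- The columns of the minor. -/
def col (j₀ : Fin (r + 1)) (k : Fin r → ι) (s : Fin (n + 1) → ι) : Fin (r + 1) ⊕ Fin n → ι × Fin (r + 1) :=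
  Sum.elim (fun j => ((j₀.insertNth (s 0) k : Fin (r + 1) → ι) j, j)) fun b => (s b.succ, j₀)

/-- The vectors are linearly independent.

PROOF: `t l₀ ≠ 0`. Let `∑_j c_j q ⊗ e_j + ∑_a d_a y_(a+1) ⊗ t = 0`. At `(i, l)` this says
`c_l q_i + t_l ∑_a d_a y_(a+1) i = 0` for all `i`, `l`. For `l = l₀`, with `q = y 0`, the independence of `y` gives
`c_(l₀) = 0` and `t_(l₀) d_a = 0`, so `d = 0`; then `c_l q_i = 0` for all `i`, so `c_l = 0` since `q ≠ 0` (`y` is
independent). -/
theorem fam_indep {q : ι → F} {y : Fin (n + 1) → ι → F} (hy : LinearIndependent F y) (hq : y 0 = q)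
    {t : Fin (r + 1) → F} (ht : t ≠ 0) : LinearIndependent F (fam q y t) := by
  rw [Fintype.linearIndependent_iff]
  intro g hg
  have key : ∀ (i : ι) (l : Fin (r + 1)),
      g (Sum.inl l) * q i + t l * ∑ a, g (Sum.inr a) * y a.succ i = 0 := by
    intro i l
    have h := congrFun hg (i, l)
    rw [Finset.sum_apply, Fintype.sum_sum_type] at h
    simp only [fam, Pi.smul_apply, smul_eq_mul, Sum.elim_inl, Sum.elim_inr, Pi.zero_apply] at h
    rw [Finset.sum_eq_single l (fun b _ hb => by rw [if_neg (Ne.symm hb)]; ring)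
      (fun h => absurd (Finset.mem_univ l) h), if_pos rfl] at h
    rw [Finset.mul_sum]
    have e : ∑ a, t l * (g (Sum.inr a) * y a.succ i) = ∑ a, g (Sum.inr a) * (y a.succ i * t l) :=
      Finset.sum_congr rfl fun a _ => by ring
    rw [e]
    linear_combination h
  obtain ⟨l₀, hl₀⟩ := Function.ne_iff.1 ht
  have hl₀' : t l₀ ≠ 0 := hl₀
  have h1 := Fintype.linearIndependent_iff.1 hy
    (Fin.cons (g (Sum.inl l₀)) (fun a => t l₀ * g (Sum.inr a))) (by
      funext i
      rw [Finset.sum_apply, Fin.sum_univ_succ]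
      simp only [Pi.smul_apply, smul_eq_mul, Fin.cons_zero, Fin.cons_succ, Pi.zero_apply]
      rw [hq]
      have e : ∑ a : Fin n, t l₀ * g (Sum.inr a) * y a.succ i
          = t l₀ * ∑ a, g (Sum.inr a) * y a.succ i := by
        rw [Finset.mul_sum]
        exact Finset.sum_congr rfl fun a _ => by ring
      rw [e]
      exact key i l₀)
  have h2 : ∀ a, g (Sum.inr a) = 0 := by
    intro a
    have h3 := h1 a.succ
    rw [Fin.cons_succ] at h3
    exact (mul_eq_zero.1 h3).resolve_left hl₀'
  have hq0 : q ≠ 0 := by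
    rw [← hq]
    exact hy.ne_zero 0
  obtain ⟨i₀, hi₀⟩ := Function.ne_iff.1 hq0
  have hi₀' : q i₀ ≠ 0 := hi₀
  rintro (l | a)
  · have h3 := key i₀ l
    rw [Finset.sum_eq_zero (fun a _ => by rw [h2 a, zero_mul]), mul_zero, add_zero] at h3
    exact (mul_eq_zero.1 h3).resolve_right hi₀'
  · exact h2 a

private theorem B1_equiv (j₀ : Fin (r + 1)) : ∃ e : Fin r ⊕ Fin (n + 1) ≃ Fin (r + 1) ⊕ Fin n,
    (∀ m, e (Sum.inl m) = Sum.inl (j₀.succAbove m)) ∧ e (Sum.inr 0) = Sum.inl j₀ ∧
    ∀ a : Fin n, e (Sum.inr a.succ) = Sum.inr a := by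
  have hb : Function.Bijective (Sum.elim (fun m => Sum.inl (j₀.succAbove m))
      (Fin.cons (Sum.inl j₀) (fun a => Sum.inr a)) : Fin r ⊕ Fin (n + 1) → Fin (r + 1) ⊕ Fin n) := by
    rw [Fintype.bijective_iff_injective_and_card]
    constructor
    · rintro (m | b) (m' | b')
      · intro h
        rw [Sum.elim_inl, Sum.elim_inl] at h
        rw [Fin.succAbove_right_injective (Sum.inl_injective h)]
      · rw [Sum.elim_inl, Sum.elim_inr]
        refine Fin.cases ?_ (fun a => ?_) b'
        · intro h
          rw [Fin.cons_zero] at h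
          exact absurd (Sum.inl_injective h) (Fin.succAbove_ne j₀ m)
        · intro h
          rw [Fin.cons_succ] at h
          exact absurd h Sum.inl_ne_inr
      · rw [Sum.elim_inl, Sum.elim_inr]
        refine Fin.cases ?_ (fun a => ?_) b
        · intro h
          rw [Fin.cons_zero] at h
          exact absurd (Sum.inl_injective h).symm (Fin.succAbove_ne j₀ m')
        · intro h
          rw [Fin.cons_succ] at h
          exact absurd h Sum.inr_ne_inl
      · rw [Sum.elim_inr, Sum.elim_inr]
        refine Fin.cases ?_ (fun a => ?_) b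
        · refine Fin.cases ?_ (fun a' => ?_) b'
          · intro _
            rfl
          · intro h
            rw [Fin.cons_zero, Fin.cons_succ] at h
            exact absurd h Sum.inl_ne_inr
        · refine Fin.cases ?_ (fun a' => ?_) b'
          · intro h
            rw [Fin.cons_zero, Fin.cons_succ] at h
            exact absurd h Sum.inr_ne_inl
          · intro h
            rw [Fin.cons_succ, Fin.cons_succ] at h
            rw [Sum.inr_injective h]
    · simp only [Fintype.card_sum, Fintype.card_fin]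
      omega
  exact ⟨Equiv.ofBijective _ hb, fun m => rfl, rfl, fun a => rfl⟩

/-- The minors.

PROOF: Let `M = Matrix.of fun a b => fam q y t a (col j₀ k s b)`, a matrix with rows and columns in
`Fin (r + 1) ⊕ Fin n`. Reindex the rows AND the columns by the same equivalence
`e : Fin r ⊕ Fin (n + 1) ≃ Fin (r + 1) ⊕ Fin n`, `inl m ↦ inl (j₀.succAbove m)`, `inr 0 ↦ inl j₀`, `inr a.succ ↦ inr a`
(`Matrix.det_submatrix_equiv_self`). The new matrix is `Matrix.fromBlocks A 0 C D`: the row `inl m` (the vector
`q ⊗ e_(succAbove m)`) has in the column `inl m'` (which is `(k m', j₀.succAbove m')`) the entry `q (k m)` if `m = m'` and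
zero otherwise, so `A = Matrix.diagonal (fun m => q (k m))`, and its entries in the columns `inr b` (whose second
component is `j₀`) are zero. `D` has the row `0` equal to `q (s b)` and the rows `a.succ` equal to
`y a.succ (s b) * t j₀`; since `q = y 0`, `D = Matrix.of fun a b => v a * y a (s b)` with `v 0 = 1`, `v a.succ = t j₀`
(`Matrix.det_mul_column` or `det_mul_row`). Now `Matrix.det_fromBlocks_zero₁₂`. -/
theorem fam_det {q : ι → F} {y : Fin (n + 1) → ι → F} (hq : y 0 = q) (t : Fin (r + 1) → F)
    (j₀ : Fin (r + 1)) (k : Fin r → ι) (s : Fin (n + 1) → ι) :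
    (Matrix.of fun a b => fam q y t a (col j₀ k s b)).det =
      (∏ m, q (k m)) * t j₀ ^ n * (Matrix.of fun a b => y a (s b)).det := by
  obtain ⟨e, he1, he2, he3⟩ := B1_equiv (n := n) j₀
  rw [← Matrix.det_submatrix_equiv_self e]
  have hM : (Matrix.of fun a b => fam q y t a (col j₀ k s b)).submatrix e e =
      Matrix.fromBlocks (Matrix.diagonal fun m => q (k m)) 0
        (Matrix.of fun a b => fam q y t (e (Sum.inr a)) (col j₀ k s (e (Sum.inl b))))
        (Matrix.of fun a b => (Fin.cons 1 (fun _ => t j₀) : Fin (n + 1) → F) a *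
          (Matrix.of fun a b => y a (s b)) a b) := by
    ext a b
    rw [Matrix.submatrix_apply, Matrix.of_apply]
    rcases a with a | a
    · rcases b with b | b
      · rw [Matrix.fromBlocks_apply₁₁, he1, he1]
        simp only [fam, col, Sum.elim_inl, Fin.insertNth_apply_succAbove]
        rw [Matrix.diagonal_apply]
        by_cases hab : a = b
        · rw [hab, if_pos rfl, if_pos rfl, mul_one]
        · rw [if_neg hab, if_neg (fun h => hab (Fin.succAbove_right_injective h).symm), mul_zero]
      · rw [Matrix.fromBlocks_apply₁₂, he1]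
        refine Fin.cases ?_ (fun b => ?_) b
        · rw [he2]
          simp only [fam, col, Sum.elim_inl]
          rw [if_neg (Fin.succAbove_ne j₀ a).symm, mul_zero, Matrix.zero_apply]
        · rw [he3]
          simp only [fam, col, Sum.elim_inl, Sum.elim_inr]
          rw [if_neg (Fin.succAbove_ne j₀ a).symm, mul_zero, Matrix.zero_apply]
    · rcases b with b | b
      · rw [Matrix.fromBlocks_apply₂₁, Matrix.of_apply]
      · rw [Matrix.fromBlocks_apply₂₂, Matrix.of_apply, Matrix.of_apply]
        have hc : col j₀ k s (e (Sum.inr b)) = (s b, j₀) := by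
          refine Fin.cases ?_ (fun b => ?_) b
          · rw [he2]
            simp only [col, Sum.elim_inl, Fin.insertNth_apply_same]
          · rw [he3]
            simp only [col, Sum.elim_inr]
        rw [hc]
        refine Fin.cases ?_ (fun a => ?_) a
        · rw [he2]
          simp only [fam, Sum.elim_inl, Fin.cons_zero]
          rw [if_pos trivial, mul_one, one_mul, hq]
        · rw [he3]
          simp only [fam, Sum.elim_inr, Fin.cons_succ]
          ring
  rw [hM, Matrix.det_fromBlocks_zero₁₂, Matrix.det_diagonal, Matrix.det_mul_column,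
    Fin.prod_univ_succ]
  simp only [Fin.cons_zero, Fin.cons_succ, Finset.prod_const, Finset.card_univ, Fintype.card_fin,
    one_mul]
  ring

end Pool.Agent.Lib.MP_17a322_nt.MG
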