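import Pool.Agent.Lib.MP_17a322_nt.MG.A3
import Pool.Agent.Lib.MP_17a322_nt.MG.B1
import Pool.Agent.Lib.MP_17a322_nt.EQ.H1

/-!
The canonical height on the product with a projective space.
-/

set_option linter.unusedSectionVars false

universe u

namespace Pool.Agent.Lib.MP_17a322_nt.MG

open MvPolynomial Height NumberField
open Pool.Agent.Lib.MP_17a322_nt.EQ

/-- A basis of a subspace. -/
private theorem b2_basis {F : Type*} [Field F] {W : Type*} [AddCommGroup W] [Module F W] [FiniteDimensional F W]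
    (U : Submodule F W) {n : ℕ} (h : Module.finrank F U = n) :
    ∃ v : Fin n → W, (∀ k, v k ∈ U) ∧ LinearIndependent F v := by
  have b := Module.finBasisOfFinrankEq F U h
  exact ⟨fun k => b k, fun k => (b k).2, b.linearIndependent.map' U.subtype U.ker_subtype⟩

/-- A basis of a subspace which begins with a given vector. PROOF: extend `![q]` to a basis of `V`
(`LinearIndependent.extend` or `exists_linearIndependent...`, or the file `BI/P6.lean` `p6_basis`), reindex. -/
theorem exists_basis {F : Type*} [Field F] {ι : Type} [Fintype ι] (V : Submodule F (ι → F)) {n : ℕ}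
    (hV : Module.finrank F V = n + 1) {q : ι → F} (hq : q ∈ V) (hq0 : q ≠ 0) :
    ∃ y : Fin (n + 1) → ι → F, y 0 = q ∧ (∀ a, y a ∈ V) ∧ LinearIndependent F y := by
  obtain ⟨i₀, hi₀⟩ := Function.ne_iff.1 hq0
  have hi₁ : q i₀ ≠ 0 := hi₀
  let φ0 : V →ₗ[F] F := (LinearMap.proj i₀).domRestrict V
  have hφ0 : LinearMap.range φ0 = ⊤ := by
    rw [LinearMap.range_eq_top]
    intro c
    refine ⟨(c / q i₀) • ⟨q, hq⟩, ?_⟩
    have h1 : φ0 ((c / q i₀) • ⟨q, hq⟩) = c / q i₀ * q i₀ := rfl
    rw [h1]
    exact div_mul_cancel₀ c hi₁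
  have hker : Module.finrank F (LinearMap.ker φ0) = n := by
    have h := LinearMap.finrank_range_add_finrank_ker φ0
    rw [hφ0, finrank_top, Module.finrank_self, hV] at h
    omega
  obtain ⟨b, hb1, hb2⟩ := b2_basis (LinearMap.ker φ0) hker
  have hli : LinearIndependent F (Fin.cons q (fun k => (b k : ι → F)) : Fin (n + 1) → ι → F) := by
    rw [linearIndependent_finCons]
    refine ⟨hb2.map' V.subtype V.ker_subtype, fun h => hi₁ ?_⟩
    have h2 : Submodule.span F (Set.range fun k => (b k : ι → F)) ≤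
        LinearMap.ker (LinearMap.proj i₀ : (ι → F) →ₗ[F] F) := by
      rw [Submodule.span_le]
      rintro _ ⟨k, rfl⟩
      exact hb1 k
    exact h2 h
  refine ⟨Fin.cons q (fun k => (b k : ι → F)), Fin.cons_zero _ _, ?_, hli⟩
  intro a
  induction a using Fin.cases with
  | zero => exact hq
  | succ k => exact (b k).2

/-- The height of a point of the product. PROOF: `logHeight_fun_mul_eq`. -/
theorem lh_sg {K : Type u} [Field K] [NumberField K] {ι Λ : Type} [Fintype ι] [Fintype Λ] {q : ι → K} (hq : q ≠ 0)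
    {t : Λ → K} (ht : t ≠ 0) : logHeight (sg q t) = logHeight q + logHeight t := by
  exact logHeight_fun_mul_eq hq ht

/-- The canonical height on the product.

PROOF: as `hCan_prod` in `EQ/H2.lean`. `finrank (Tan J q) = n + 1`, `finrank (Tan (qJ _ J) (sg q t)) = n + r + 1` (by
`qJ_smooth`, `qJ_IsPt`). Take `y` from `exists_basis` for `V = Tan J q` (`self_mem_Tan`). The vectors `fam q y t` lie in
`Tan (qJ _ J) (sg q t)` (`qJ_tan` with `y = 0`, `τ = e_j`, and with `τ = 0`) and are independent (`fam_indep`). By `hPl_eq`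
(with an equivalence `Fin (n + r + 1) ≃ Fin (r + 1) ⊕ Fin n`, the same for rows and columns) and `logHeight_comp_le`,
`logHeight_comp_equiv`, `fam_det`:
`hPl (Tan') ≥ logHeight (fun z : ((Fin r → ι) × Fin (r + 1)) × (Fin (n + 1) → ι) => (∏ m, q (z.1.1 m)) * t z.1.2 ^ n *
det (y a (z.2 b)))`, which by `logHeight_fun_mul_eq` (twice), `logHeight_fun_prod_eq` and `logHeight_pow` is
`r * logHeight q + n * logHeight t + hPl (Tan J q)`. Then unfold `hCan` and use `lh_sg`: the difference is exact. -/
theorem hCan_qJ {K : Type u} [Field K] [NumberField K] {ι : Type} [Fintype ι] {J : Ideal (MvPolynomial ι K)}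
    {n r : ℕ} (hJ : Smooth J n) {q : ι → K} (hq : IsPt J q) {t : Fin (r + 1) → K} (ht : t ≠ 0) :
    hCan J q - (r + 1) * logHeight t ≤ hCan (qJ (Fin (r + 1)) J) (sg q t) := by
  have hT : Module.finrank K (Tan J q) = n + 1 := hJ.dim K q hq
  have hJ' : Smooth (qJ (Fin (r + 1)) J) (n + r) := qJ_smooth hJ (Fintype.card_fin _)
  have hq' : IsPt (qJ (Fin (r + 1)) J) (sg q t) := qJ_IsPt hq ht
  have hT' : Module.finrank K (Tan (qJ (Fin (r + 1)) J) (sg q t)) = n + r + 1 := hJ'.dim K _ hq'
  obtain ⟨y, hy0, hy, hyi⟩ := exists_basis (Tan J q) hT (self_mem_Tan hJ.homog hq) hq.1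
  -- the vectors of the tangent space of the product
  have hY : ∀ a, fam q y t a ∈ Tan (qJ (Fin (r + 1)) J) (sg q t) := by
    rintro (j | a)
    · have h := qJ_tan hq.2 (Submodule.zero_mem (Tan J q)) t fun l => if l = j then 1 else 0
      have h1 : fam q y t (Sum.inl j) = fun z : ι × Fin (r + 1) =>
          (0 : ι → K) z.1 * t z.2 + q z.1 * if z.2 = j then 1 else 0 := by
        ext z
        rw [Pi.zero_apply, zero_mul, zero_add]
        rfl
      rw [h1]
      exact h
    · have h := qJ_tan hq.2 (hy a.succ) t fun _ => 0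
      have h1 : fam q y t (Sum.inr a) = fun z : ι × Fin (r + 1) =>
          y a.succ z.1 * t z.2 + q z.1 * (fun _ => 0 : Fin (r + 1) → K) z.2 := by
        ext z
        rw [mul_zero, add_zero]
        rfl
      rw [h1]
      exact h
  have hYi : LinearIndependent K (fam q y t) := fam_indep hyi hy0 ht
  let e : Fin (n + r + 1) ≃ Fin (r + 1) ⊕ Fin n :=
    (finCongr (by omega)).trans finSumFinEquiv.symm
  -- the heights
  have e1 : hPl (Tan J q) =
      logHeight fun s : Fin (n + 1) → ι => (Matrix.of fun a b => y a (s b)).det :=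
    hPl_eq _ hT y hy hyi
  have e2 : hPl (Tan (qJ (Fin (r + 1)) J) (sg q t)) =
      logHeight fun s : Fin (n + r + 1) → ι × Fin (r + 1) =>
        (Matrix.of fun a b => fam q y t (e a) (s b)).det :=
    hPl_eq _ hT' (fun a => fam q y t (e a)) (fun a => hY (e a)) (hYi.comp e e.injective)
  have e3 : hPl (Tan J q) + (r * logHeight q + n * logHeight t) ≤
      hPl (Tan (qJ (Fin (r + 1)) J) (sg q t)) := by
    have hu : (fun k : Fin r → ι => ∏ m, q (k m)) ≠ 0 := by
      obtain ⟨i, hi⟩ := Function.ne_iff.1 hq.1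
      exact Function.ne_iff.2 ⟨fun _ => i, Finset.prod_ne_zero_iff.2 fun _ _ => hi⟩
    have hw : t ^ n ≠ 0 := by
      obtain ⟨i, hi⟩ := Function.ne_iff.1 ht
      exact Function.ne_iff.2 ⟨i, pow_ne_zero n hi⟩
    have h2 : (fun z : (Fin r → ι) × Fin (r + 1) => (∏ m, q (z.1 m)) * (t ^ n) z.2) ≠ 0 := by
      obtain ⟨i, hi⟩ := Function.ne_iff.1 hu
      obtain ⟨j, hj⟩ := Function.ne_iff.1 hw
      exact Function.ne_iff.2 ⟨(i, j), mul_ne_zero hi hj⟩
    have h4 : logHeight (fun k : Fin r → ι => ∏ m, q (k m)) = r * logHeight q := by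
      rw [logHeight_fun_prod_eq (x := fun _ : Fin r => q) fun _ => hq.1, Finset.sum_const,
        Finset.card_univ, Fintype.card_fin, nsmul_eq_mul]
    rw [← h4, ← logHeight_pow t n, ← logHeight_fun_mul_eq hu hw, e1, add_comm,
      ← logHeight_fun_mul_eq h2 (minors_ne hyi), e2]
    have h3 : (fun z : ((Fin r → ι) × Fin (r + 1)) × (Fin (n + 1) → ι) =>
        ((∏ m, q (z.1.1 m)) * (t ^ n) z.1.2) * (Matrix.of fun a b => y a (z.2 b)).det) =
        (fun s : Fin (n + r + 1) → ι × Fin (r + 1) =>
          (Matrix.of fun a b => fam q y t (e a) (s b)).det) ∘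
          fun z => fun b => col z.1.2 z.1.1 z.2 (e b) := by
      ext z
      have h5 : (Matrix.of fun a b => fam q y t (e a) (col z.1.2 z.1.1 z.2 (e b))) =
          (Matrix.of fun a b => fam q y t a (col z.1.2 z.1.1 z.2 b)).submatrix e e := rfl
      rw [Function.comp_apply, h5, Matrix.det_submatrix_equiv_self, fam_det hy0, Pi.pow_apply]
    rw [h3]
    exact logHeight_comp_le _ _
  unfold hCan
  rw [hT, hT', lh_sg hq.1 ht]
  push_cast
  linarith

end Pool.Agent.Lib.MP_17a322_nt.MG
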