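import Pool.Agent.Lib.MP_17a322_nt.MG.C2a

/-!
Algebraic integers all of whose absolute values have the same size.
-/

universe u

namespace Pool.Agent.Lib.MP_17a322_nt.MG

open NumberField

/-- The construction with a given number `m`. -/
private theorem C1_main (K : Type u) [Field K] [NumberField K] {B : ℝ}
    (hB : ∀ (s : ℝ) (x : 𝓞 K), 0 ≤ s →
      (∀ j, |(((RingOfIntegers.basis K).repr x j : ℤ) : ℝ)| ≤ s) → ∀ w : InfinitePlace K, w (x : K) ≤ B * s)
    (N : ℕ) (hN : B ≤ N) (m : ℕ) :
    ∃ S : Finset (𝓞 K), (∀ x ∈ S, ∀ w : InfinitePlace K, (N : ℝ) * m ≤ w (x : K) ∧ w (x : K) ≤ 3 * N * m) ∧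
      (m + 1) ^ Module.finrank ℚ K = S.card := by
  classical
  set F : (Module.Free.ChooseBasisIndex ℤ (𝓞 K) → ℕ) → 𝓞 K := fun a =>
    ((2 * N * m : ℕ) : 𝓞 K) + ∑ j, (a j : ℤ) • RingOfIntegers.basis K j with hF
  have hinj : Function.Injective F := by
    intro a b hab
    have h1 : ∑ j, (a j : ℤ) • RingOfIntegers.basis K j = ∑ j, (b j : ℤ) • RingOfIntegers.basis K j :=
      add_left_cancel hab
    have h2 := congrArg (RingOfIntegers.basis K).equivFun h1
    rw [← (RingOfIntegers.basis K).equivFun_symm_apply, ← (RingOfIntegers.basis K).equivFun_symm_apply,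
      LinearEquiv.apply_symm_apply, LinearEquiv.apply_symm_apply] at h2
    funext j
    exact_mod_cast congrFun h2 j
  refine ⟨(Fintype.piFinset (fun _ => Finset.range (m + 1))).image F, ?_, ?_⟩
  · intro x hx w
    obtain ⟨a, ha, rfl⟩ := Finset.mem_image.mp hx
    rw [Fintype.mem_piFinset] at ha
    set y : 𝓞 K := ∑ j, (a j : ℤ) • RingOfIntegers.basis K j with hy
    have hyw : w (y : K) ≤ B * m := by
      refine hB m y (Nat.cast_nonneg _) ?_ w
      intro j
      have h1 : (RingOfIntegers.basis K).repr y j = (a j : ℤ) := by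
        have h2 := congrFun ((RingOfIntegers.basis K).equivFun.apply_symm_apply (fun j => (a j : ℤ))) j
        rw [(RingOfIntegers.basis K).equivFun_symm_apply] at h2
        exact h2
      rw [h1]
      have h3 : a j ≤ m := Nat.lt_succ_iff.mp (Finset.mem_range.mp (ha j))
      rw [Int.cast_natCast, abs_of_nonneg (Nat.cast_nonneg _)]
      exact_mod_cast h3
    have hFx : ((F a : 𝓞 K) : K) = ((2 * N * m : ℕ) : K) + (y : K) := by
      show ((((2 * N * m : ℕ) : 𝓞 K) + y : 𝓞 K) : K) = _
      push_cast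
      rfl
    have h4 : w ((F a : 𝓞 K) : K) = ‖((2 * N * m : ℕ) : ℂ) + w.embedding (y : K)‖ := by
      rw [← InfinitePlace.norm_embedding_eq w, hFx, map_add, map_natCast]
    have h5 : ‖w.embedding (y : K)‖ = w (y : K) := InfinitePlace.norm_embedding_eq w _
    have h6 : ‖((2 * N * m : ℕ) : ℂ)‖ = 2 * N * m := by
      rw [Complex.norm_natCast]
      push_cast
      ring
    have h7 : w (y : K) ≤ N * m := hyw.trans (mul_le_mul_of_nonneg_right hN (Nat.cast_nonneg _))
    rw [h4]
    constructor
    · have h8 := norm_sub_le (((2 * N * m : ℕ) : ℂ) + w.embedding (y : K)) (w.embedding (y : K))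
      rw [add_sub_cancel_right, h6, h5] at h8
      linarith
    · have h8 := norm_add_le ((2 * N * m : ℕ) : ℂ) (w.embedding (y : K))
      rw [h6, h5] at h8
      linarith
  · rw [Finset.card_image_of_injective _ hinj, Fintype.card_piFinset]
    simp only [Finset.card_range, Finset.prod_const, Finset.card_univ]
    rw [← Module.finrank_eq_card_chooseBasisIndex, RingOfIntegers.rank]

/-- There are many algebraic integers all of whose absolute values have the same size.

PROOF: Let `ω = RingOfIntegers.basis K`, `D = finrank ℚ K` (the cardinality of its index type), `N` a natural number with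
`B ≤ N`, `B` from `le_coord`. For a natural number `m` consider the elements `x = 2 N m + ∑_j a_j ω_j`,
`0 ≤ a_j ≤ m` integers. They are distinct (the constant is the same for all of them, `ω` is a basis), there are
`(m + 1) ^ D` of them, and for every infinite place `w (∑ a_j ω_j) ≤ N m`, so `N m ≤ w x ≤ 3 N m`. For real
`R ≥ 3 N` take `m = ⌊R / (3 N)⌋₊ ≥ 1`; then `R / (6 N) ≤ m ≤ R / (3 N)`, so `R / 6 ≤ w x ≤ R`, and the number is at
least `(R / (6 N)) ^ D`. For `1 ≤ R < 3 N` take `S = {1}`: `R / C ≤ 1 ≤ R` if `C ≥ 3 N`, and `c R ^ D ≤ 1` if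
`c ≤ (3 N) ^ (-D)`. -/
theorem box (K : Type u) [Field K] [NumberField K] : ∃ c C : ℝ, 0 < c ∧ 1 ≤ C ∧ ∀ R : ℝ, 1 ≤ R →
    ∃ S : Finset (𝓞 K), (∀ x ∈ S, ∀ w : InfinitePlace K, R / C ≤ w (x : K) ∧ w (x : K) ≤ R) ∧
      c * R ^ Module.finrank ℚ K ≤ S.card := by
  obtain ⟨B, hB1, hB⟩ := le_coord K
  obtain ⟨N, hN⟩ := exists_nat_ge B
  have hN1 : (1 : ℝ) ≤ N := hB1.trans hN
  have hN0 : (0 : ℝ) < N := by linarith
  refine ⟨((6 * (N : ℝ))⁻¹) ^ Module.finrank ℚ K, 6 * N, by positivity, by linarith, ?_⟩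
  intro R hR
  have hR0 : 0 < R := by linarith
  have hcR : ((6 * (N : ℝ))⁻¹) ^ Module.finrank ℚ K * R ^ Module.finrank ℚ K =
      (R / (6 * N)) ^ Module.finrank ℚ K := by
    rw [← mul_pow, div_eq_mul_inv, mul_comm R]
  by_cases h : 3 * (N : ℝ) ≤ R
  · set m : ℕ := ⌊R / (3 * N)⌋₊ with hm
    obtain ⟨S, hS1, hS2⟩ := C1_main K hB N hN m
    have h1 : (1 : ℝ) ≤ R / (3 * N) := by
      rw [le_div_iff₀ (by positivity)]
      linarith
    have h2 : (m : ℝ) ≤ R / (3 * N) := Nat.floor_le (by positivity)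
    have h3 : R / (3 * N) < m + 1 := Nat.lt_floor_add_one _
    have h4 : (1 : ℝ) ≤ m := by
      have : 1 ≤ m := Nat.le_floor (by exact_mod_cast h1)
      exact_mod_cast this
    have h5 : R / (6 * N) ≤ m := by
      have h6 : R / (6 * N) = R / (3 * N) / 2 := by
        rw [div_div]
        congr 1
        ring
      rw [h6]
      linarith
    refine ⟨S, ?_, ?_⟩
    · intro x hx w
      obtain ⟨ha, hb⟩ := hS1 x hx w
      constructor
      · refine h5.trans (le_trans ?_ ha)
        nlinarith
      · refine hb.trans ?_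
        have h7 := (le_div_iff₀ (by positivity)).mp h2
        linarith
    · rw [hcR, ← hS2]
      push_cast
      exact pow_le_pow_left₀ (by positivity) (h5.trans (by linarith)) _
  · refine ⟨{1}, ?_, ?_⟩
    · intro x hx w
      rw [Finset.mem_singleton] at hx
      subst hx
      have h1 : w ((1 : 𝓞 K) : K) = 1 := by
        show w (algebraMap (𝓞 K) K 1) = 1
        rw [map_one]
        exact map_one w
      rw [h1]
      refine ⟨?_, hR⟩
      rw [div_le_one (by positivity)]
      linarith
    · rw [hcR, Finset.card_singleton, Nat.cast_one]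
      apply pow_le_one₀ (by positivity)
      rw [div_le_one (by positivity)]
      linarith

end Pool.Agent.Lib.MP_17a322_nt.MG
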