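import Pool.Agent.Lib.MP_17a322_nt.MG.C2a

/-!
The number of the small elements of an ideal.
-/

universe u

namespace Pool.Agent.Lib.MP_17a322_nt.MG

open NumberField

/-- The number of the small elements of an ideal.

PROOF: Let `ω = RingOfIntegers.basis K`, `D = finrank ℚ K` (the cardinality of its index type), `B₁` from `coord_le`, `B`
from `le_coord`. The coordinates of the elements of `T` satisfy `|a_j| ≤ B₁ R`. Let `s = N(I) ^ (1 / D) / (2 B)`
(`N(I) ≥ 1` since `I ≠ ⊥`), so that `(B s) ^ D = N(I) / 2 ^ D < N(I)`. If two different elements `x, x'` of `T` have the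
same vector `⌊a_j / s⌋`, then the coordinates of `x - x' ∈ I` are at most `s`, so `w (x - x') ≤ B s` and
`N(I) ≤ (B s) ^ D` by `absNorm_le`, a contradiction. So `|T|` is at most the number of the integral vectors with
coordinates in `[-(B₁ R / s + 1), B₁ R / s]`, which is at most `(2 B₁ R / s + 2) ^ D`. If `T` is not empty then
`N(I) ≤ R ^ D` (`absNorm_le` for an `x ∈ T`), so `s ≤ R` and
`(2 B₁ R / s + 2) ^ D ≤ ((2 B₁ + 2) R / s) ^ D = ((2 B₁ + 2) 2 B) ^ D R ^ D / N(I)`. -/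
theorem ideal_box (K : Type u) [Field K] [NumberField K] : ∃ C : ℝ, 1 ≤ C ∧ ∀ R : ℝ, 1 ≤ R →
    ∀ (I : Ideal (𝓞 K)) (T : Finset (𝓞 K)), I ≠ ⊥ →
      (∀ x ∈ T, x ∈ I ∧ x ≠ 0 ∧ ∀ w : InfinitePlace K, w (x : K) ≤ R) →
      (T.card : ℝ) ≤ C * R ^ Module.finrank ℚ K / Ideal.absNorm I := by
  classical
  obtain ⟨B₁, hB₁, h₁⟩ := coord_le K
  obtain ⟨B, hB, h₂⟩ := le_coord K
  have hD : Module.finrank ℚ K ≠ 0 := Module.finrank_pos.ne'
  have hcard : Fintype.card (Module.Free.ChooseBasisIndex ℤ (𝓞 K)) = Module.finrank ℚ K := by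
    rw [← Module.finrank_eq_card_chooseBasisIndex, RingOfIntegers.rank]
  refine ⟨((2 * B₁ + 2) * (2 * B)) ^ Module.finrank ℚ K, one_le_pow₀ (by nlinarith), ?_⟩
  intro R hR I T hI hT
  have hC0 : (0 : ℝ) ≤ ((2 * B₁ + 2) * (2 * B)) ^ Module.finrank ℚ K := by positivity
  rcases T.eq_empty_or_nonempty with rfl | ⟨x0, hx0⟩
  · rw [Finset.card_empty, Nat.cast_zero]
    positivity
  have hN1 : 1 ≤ Ideal.absNorm I := Nat.one_le_iff_ne_zero.2 fun h => hI (Ideal.absNorm_eq_zero_iff.1 h)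
  have hN : (0 : ℝ) < Ideal.absNorm I := by exact_mod_cast hN1
  obtain ⟨y, hy0, hy⟩ : ∃ y : ℝ, 0 < y ∧ y ^ Module.finrank ℚ K = Ideal.absNorm I :=
    ⟨(Ideal.absNorm I : ℝ) ^ ((Module.finrank ℚ K : ℝ)⁻¹), Real.rpow_pos_of_pos hN _,
      Real.rpow_inv_natCast_pow hN.le hD⟩
  have hyR : y ≤ R := by
    have h := absNorm_le (hT x0 hx0).1 (hT x0 hx0).2.1 (hT x0 hx0).2.2
    rw [← hy] at h
    exact le_of_pow_le_pow_left₀ hD (by linarith) h
  obtain ⟨s, hs⟩ : ∃ s : ℝ, s = y / (2 * B) := ⟨_, rfl⟩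
  have hs0 : 0 < s := by
    rw [hs]
    positivity
  have hys : y = 2 * B * s := by
    rw [hs]
    field_simp
  have hsR : s ≤ R := by
    have : s ≤ y := by
      rw [hys]
      nlinarith
    linarith
  let f : 𝓞 K → (Module.Free.ChooseBasisIndex ℤ (𝓞 K) → ℤ) := fun x j =>
    ⌊(((RingOfIntegers.basis K).repr x j : ℤ) : ℝ) / s⌋
  have hinj : Set.InjOn f T := by
    intro x hx x' hx' hf
    by_contra hne
    have hle : ∀ w : InfinitePlace K, w ((x - x' : 𝓞 K) : K) ≤ B * s := by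
      refine h₂ s (x - x') hs0.le fun j => ?_
      have h := Int.abs_sub_lt_one_of_floor_eq_floor (congrFun hf j)
      rw [← sub_div, abs_div, abs_of_pos hs0, div_lt_one hs0] at h
      rw [map_sub, Finsupp.sub_apply, Int.cast_sub]
      exact h.le
    have h := absNorm_le (I.sub_mem (hT x hx).1 (hT x' hx').1) (sub_ne_zero.2 hne) hle
    have h3 : B * s < y := by
      rw [hys]
      nlinarith
    have h4 := pow_lt_pow_left₀ h3 (by positivity) hD
    rw [hy] at h4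
    linarith
  obtain ⟨a, ha⟩ : ∃ a : ℝ, a = B₁ * R / s := ⟨_, rfl⟩
  have hmap : Set.MapsTo f T (Fintype.piFinset fun _ : Module.Free.ChooseBasisIndex ℤ (𝓞 K) =>
      Finset.Icc ⌊-a⌋ ⌊a⌋ : Finset (Module.Free.ChooseBasisIndex ℤ (𝓞 K) → ℤ)) := by
    intro x hx
    rw [Finset.mem_coe, Fintype.mem_piFinset]
    intro j
    have h := abs_le.1 (h₁ R x (by linarith) (hT x hx).2.2 j)
    rw [Finset.mem_Icc]
    constructor
    · refine Int.floor_le_floor ?_
      rw [ha, ← neg_div]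
      exact div_le_div_of_nonneg_right h.1 hs0.le
    · refine Int.floor_le_floor ?_
      rw [ha]
      exact div_le_div_of_nonneg_right h.2 hs0.le
  have h5 := Finset.card_le_card_of_injOn f hmap hinj
  rw [Fintype.card_piFinset, Finset.prod_const, Finset.card_univ, hcard] at h5
  have ha0 : 0 ≤ a := by
    rw [ha]
    positivity
  have h6 : ((Finset.Icc ⌊-a⌋ ⌊a⌋).card : ℝ) ≤ 2 * a + 2 := by
    have h7 : ⌊-a⌋ ≤ ⌊a⌋ + 1 := by
      have := Int.floor_le_floor (show -a ≤ a by linarith)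
      omega
    have h8 : ((Finset.Icc ⌊-a⌋ ⌊a⌋).card : ℤ) = ⌊a⌋ + 1 - ⌊-a⌋ := by
      rw [Int.card_Icc, Int.toNat_of_nonneg (by omega)]
    have h9 : ((Finset.Icc ⌊-a⌋ ⌊a⌋).card : ℝ) = (⌊a⌋ : ℝ) + 1 - (⌊-a⌋ : ℝ) := by
      exact_mod_cast h8
    have h10 := Int.floor_le a
    have h11 := Int.lt_floor_add_one (-a)
    rw [h9]
    linarith
  have h7 : (2 * a + 2) ≤ (2 * B₁ + 2) * (2 * B) * R / y := by
    rw [hys, ha]
    have e1 : (2 * B₁ + 2) * (2 * B) * R / (2 * B * s) = 2 * (B₁ * R / s) + 2 * (R / s) := by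
      field_simp
    rw [e1]
    have e2 : 1 ≤ R / s := (one_le_div hs0).2 hsR
    linarith
  calc (T.card : ℝ) ≤ ((Finset.Icc ⌊-a⌋ ⌊a⌋).card : ℝ) ^ Module.finrank ℚ K := by exact_mod_cast h5
    _ ≤ ((2 * B₁ + 2) * (2 * B) * R / y) ^ Module.finrank ℚ K :=
      pow_le_pow_left₀ (Nat.cast_nonneg _) (h6.trans h7) _
    _ = ((2 * B₁ + 2) * (2 * B)) ^ Module.finrank ℚ K * R ^ Module.finrank ℚ K / Ideal.absNorm I := by
      rw [div_pow, mul_pow _ R, hy]

end Pool.Agent.Lib.MP_17a322_nt.MG
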