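import Mathlib

/-!
The coordinates of an algebraic integer in a basis of the ring of integers.
-/

universe u

namespace Pool.Agent.Lib.MP_17a322_nt.MG

open NumberField

/-- The coordinates of a small element are small. PROOF: the map `x ↦ (σ x)_σ` (`σ` the complex embeddings) is injective
and linear on `K`, with image a lattice; or: `a_j = trace (x * ω*_j)` with the basis `ω*` of `K` dual to `ω` with respect to
the trace form (`(traceForm ℚ K).dualBasis`), the trace is the sum over the embeddings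
(`Algebra.trace_eq_sum_embeddings`), and `|σ x| = w x ≤ R`; or the lemmas on `canonicalEmbedding.latticeBasis`. -/
theorem coord_le (K : Type u) [Field K] [NumberField K] : ∃ B : ℝ, 1 ≤ B ∧ ∀ (R : ℝ) (x : 𝓞 K), 0 ≤ R →
    (∀ w : InfinitePlace K, w (x : K) ≤ R) → ∀ j, |(((RingOfIntegers.basis K).repr x j : ℤ) : ℝ)| ≤ B * R := by
  classical
  let b := integralBasis K
  let d := (Algebra.traceForm ℚ K).dualBasis (traceForm_nondegenerate ℚ K) b
  refine ⟨1 + ∑ j, ∑ σ : K →ₐ[ℚ] ℂ, ‖σ (d j)‖, ?_, fun R x hR hx j => ?_⟩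
  · have : 0 ≤ ∑ j, ∑ σ : K →ₐ[ℚ] ℂ, ‖σ (d j)‖ :=
      Finset.sum_nonneg fun j _ => Finset.sum_nonneg fun σ _ => norm_nonneg _
    linarith
  have h1 : Algebra.trace ℚ K (d j * (x : K)) = b.repr (x : K) j := by
    have h2 : Algebra.traceForm ℚ K (d j) (x : K) = b.repr (x : K) j := by
      conv_lhs => rw [← b.sum_repr (x : K)]
      rw [map_sum]
      rw [Finset.sum_eq_single j]
      · rw [map_smul, LinearMap.BilinForm.apply_dualBasis_left, if_pos rfl, smul_eq_mul, mul_one]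
      · intro i _ hi
        rw [map_smul, LinearMap.BilinForm.apply_dualBasis_left, if_neg hi, smul_zero]
      · intro h
        exact absurd (Finset.mem_univ j) h
    rw [← h2, Algebra.traceForm_apply]
  have h3 : b.repr (x : K) j = (((RingOfIntegers.basis K).repr x j : ℤ) : ℚ) := integralBasis_repr_apply K x j
  have h4 : ((((RingOfIntegers.basis K).repr x j : ℤ) : ℝ) : ℂ) = ∑ σ : K →ₐ[ℚ] ℂ, σ (d j) * σ (x : K) := by
    have h5 := trace_eq_sum_embeddings (K := ℚ) (L := K) ℂ (x := d j * (x : K))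
    rw [h1, h3] at h5
    simp only [map_mul] at h5
    rw [← h5]
    simp
  have h6 : |(((RingOfIntegers.basis K).repr x j : ℤ) : ℝ)| = ‖∑ σ : K →ₐ[ℚ] ℂ, σ (d j) * σ (x : K)‖ := by
    rw [← h4, Complex.norm_real, Real.norm_eq_abs]
  rw [h6]
  have h7 : ∀ σ : K →ₐ[ℚ] ℂ, ‖σ (x : K)‖ ≤ R := fun σ => hx (InfinitePlace.mk (σ : K →+* ℂ))
  calc ‖∑ σ : K →ₐ[ℚ] ℂ, σ (d j) * σ (x : K)‖ ≤ ∑ σ : K →ₐ[ℚ] ℂ, ‖σ (d j) * σ (x : K)‖ := norm_sum_le _ _
    _ ≤ ∑ σ : K →ₐ[ℚ] ℂ, ‖σ (d j)‖ * R := by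
        refine Finset.sum_le_sum fun σ _ => ?_
        rw [norm_mul]
        exact mul_le_mul_of_nonneg_left (h7 σ) (norm_nonneg _)
    _ = (∑ σ : K →ₐ[ℚ] ℂ, ‖σ (d j)‖) * R := (Finset.sum_mul _ _ _).symm
    _ ≤ (1 + ∑ j, ∑ σ : K →ₐ[ℚ] ℂ, ‖σ (d j)‖) * R := by
        refine mul_le_mul_of_nonneg_right ?_ hR
        have h8 : ∑ σ : K →ₐ[ℚ] ℂ, ‖σ (d j)‖ ≤ ∑ j, ∑ σ : K →ₐ[ℚ] ℂ, ‖σ (d j)‖ :=
          Finset.single_le_sum (f := fun j => ∑ σ : K →ₐ[ℚ] ℂ, ‖σ (d j)‖)
            (fun j _ => Finset.sum_nonneg fun σ _ => norm_nonneg _) (Finset.mem_univ j)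
        linarith

/-- The absolute values of an element with small coordinates are small. PROOF: `B = 1 + ∑_(w, j) w (ω_j)`. -/
theorem le_coord (K : Type u) [Field K] [NumberField K] : ∃ B : ℝ, 1 ≤ B ∧ ∀ (s : ℝ) (x : 𝓞 K), 0 ≤ s →
    (∀ j, |(((RingOfIntegers.basis K).repr x j : ℤ) : ℝ)| ≤ s) → ∀ w : InfinitePlace K, w (x : K) ≤ B * s := by
  classical
  refine ⟨1 + ∑ w : InfinitePlace K, ∑ j, w ((RingOfIntegers.basis K j : 𝓞 K) : K), ?_, fun s x hs hx w => ?_⟩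
  · have : 0 ≤ ∑ w : InfinitePlace K, ∑ j, w ((RingOfIntegers.basis K j : 𝓞 K) : K) :=
      Finset.sum_nonneg fun w _ => Finset.sum_nonneg fun j _ => apply_nonneg _ _
    linarith
  have h1 : (x : K) = ∑ j, ((((RingOfIntegers.basis K).repr x j : ℤ) : K)) * ((RingOfIntegers.basis K j : 𝓞 K) : K) := by
    have h0 : algebraMap (𝓞 K) K x = algebraMap (𝓞 K) K
        (∑ j, ((RingOfIntegers.basis K).repr x j) • (RingOfIntegers.basis K j)) := by
      rw [(RingOfIntegers.basis K).sum_repr x]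
    rw [map_sum] at h0
    refine h0.trans (Finset.sum_congr rfl fun j _ => ?_)
    rw [zsmul_eq_mul, map_mul, map_intCast]
  have h2 : w (x : K) = ‖∑ j, ((((RingOfIntegers.basis K).repr x j : ℤ) : ℂ)) *
      w.embedding ((RingOfIntegers.basis K j : 𝓞 K) : K)‖ := by
    rw [← InfinitePlace.norm_embedding_eq, h1, map_sum]
    simp only [map_mul, map_intCast]
  rw [h2]
  calc ‖∑ j, ((((RingOfIntegers.basis K).repr x j : ℤ) : ℂ)) * w.embedding ((RingOfIntegers.basis K j : 𝓞 K) : K)‖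
      ≤ ∑ j, ‖((((RingOfIntegers.basis K).repr x j : ℤ) : ℂ)) * w.embedding ((RingOfIntegers.basis K j : 𝓞 K) : K)‖ :=
        norm_sum_le _ _
    _ ≤ ∑ j, s * w ((RingOfIntegers.basis K j : 𝓞 K) : K) := by
        refine Finset.sum_le_sum fun j _ => ?_
        rw [norm_mul, InfinitePlace.norm_embedding_eq, Complex.norm_intCast]
        exact mul_le_mul_of_nonneg_right (hx j) (apply_nonneg _ _)
    _ = (∑ j, w ((RingOfIntegers.basis K j : 𝓞 K) : K)) * s := by
        rw [← Finset.mul_sum, mul_comm]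
    _ ≤ (1 + ∑ w : InfinitePlace K, ∑ j, w ((RingOfIntegers.basis K j : 𝓞 K) : K)) * s := by
        refine mul_le_mul_of_nonneg_right ?_ hs
        have h8 : ∑ j, w ((RingOfIntegers.basis K j : 𝓞 K) : K)
            ≤ ∑ w : InfinitePlace K, ∑ j, w ((RingOfIntegers.basis K j : 𝓞 K) : K) :=
          Finset.single_le_sum (f := fun w : InfinitePlace K => ∑ j, w ((RingOfIntegers.basis K j : 𝓞 K) : K))
            (fun w _ => Finset.sum_nonneg fun j _ => apply_nonneg _ _) (Finset.mem_univ w)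
        linarith

/-- The norm of an ideal with a small element. PROOF: `Ideal.absNorm_dvd_absNorm_of_le`, `Ideal.absNorm_span_singleton`,
`InfinitePlace.prod_eq_abs_norm`, `InfinitePlace.sum_mult_eq`. -/
theorem absNorm_le {K : Type u} [Field K] [NumberField K] {I : Ideal (𝓞 K)} {x : 𝓞 K} (hx : x ∈ I) (hx0 : x ≠ 0)
    {s : ℝ} (hs : ∀ w : InfinitePlace K, w (x : K) ≤ s) : (Ideal.absNorm I : ℝ) ≤ s ^ Module.finrank ℚ K := by
  have h1 : Ideal.absNorm I ∣ (Algebra.norm ℤ x).natAbs := by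
    rw [← Ideal.absNorm_span_singleton]
    exact Ideal.absNorm_dvd_absNorm_of_le ((Ideal.span_singleton_le_iff_mem I).2 hx)
  have h2 : 0 < (Algebra.norm ℤ x).natAbs := Int.natAbs_pos.2 (by
    rw [Ne, Algebra.norm_eq_zero_iff]
    exact hx0)
  have h3 : (Ideal.absNorm I : ℝ) ≤ ((Algebra.norm ℤ x).natAbs : ℝ) := by
    exact_mod_cast Nat.le_of_dvd h2 h1
  have h4 : ((Algebra.norm ℤ x).natAbs : ℝ) = ∏ w : InfinitePlace K, w (x : K) ^ w.mult := by
    rw [InfinitePlace.prod_eq_abs_norm, Nat.cast_natAbs, Int.cast_abs]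
    have h5 : Algebra.norm ℚ (x : K) = ((Algebra.norm ℤ x : ℤ) : ℚ) := (Algebra.coe_norm_int x).symm
    rw [h5]
    push_cast
    rfl
  rw [h4] at h3
  refine h3.trans ?_
  rw [← InfinitePlace.sum_mult_eq, ← Finset.prod_pow_eq_pow_sum]
  exact Finset.prod_le_prod (fun w _ => pow_nonneg (apply_nonneg _ _) _)
    fun w _ => pow_le_pow_left₀ (apply_nonneg _ _) (hs w) _

end Pool.Agent.Lib.MP_17a322_nt.MG
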