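import Mathlib

/-!
The sum of the inverse squares of the norms of the ideals of large norm.
-/

universe u

namespace Pool.Agent.Lib.MP_17a322_nt.MG

open NumberField

/-- The number of ideals of large bounded norm. -/
private theorem C3_count (K : Type u) [Field K] [NumberField K] : ∃ A s0 : ℝ, 1 ≤ A ∧ 1 ≤ s0 ∧ ∀ n : ℕ, s0 ≤ n →
    ∀ S : Finset (Ideal (𝓞 K)), (∀ I ∈ S, Ideal.absNorm I ≤ n) → (S.card : ℝ) ≤ A * n := by
  classical
  obtain ⟨L, hL⟩ : ∃ L : ℝ, Filter.Tendsto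
      (fun s : ℝ => (Nat.card {I : Ideal (𝓞 K) // (Ideal.absNorm I : ℝ) ≤ s} : ℝ) / s)
      Filter.atTop (nhds L) := ⟨_, NumberField.Ideal.tendsto_norm_le_div_atTop K⟩
  have h1 : ∀ᶠ s : ℝ in Filter.atTop,
      (Nat.card {I : Ideal (𝓞 K) // (Ideal.absNorm I : ℝ) ≤ s} : ℝ) / s < L + 1 :=
    hL.eventually_lt_const (lt_add_one _)
  obtain ⟨s0, hs0⟩ := Filter.eventually_atTop.mp h1
  refine ⟨max (L + 1) 1, max s0 1, le_max_right _ _, le_max_right _ _, ?_⟩
  intro n hn S hS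
  have hn1 : (1 : ℝ) ≤ n := (le_max_right _ _).trans hn
  have h2 := hs0 n ((le_max_left _ _).trans hn)
  rw [div_lt_iff₀ (by linarith)] at h2
  have hfin : {I : Ideal (𝓞 K) | Ideal.absNorm I ≤ n}.Finite := Ideal.finite_setOfPred_absNorm_le n
  have h3 : S.card ≤ Nat.card {I : Ideal (𝓞 K) // (Ideal.absNorm I : ℝ) ≤ (n : ℝ)} := by
    have h4 : S.card ≤ {I : Ideal (𝓞 K) | Ideal.absNorm I ≤ n}.ncard := by
      rw [← Set.ncard_coe_finset]
      exact Set.ncard_le_ncard (fun I hI => hS I hI) hfin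
    refine h4.trans (le_of_eq ?_)
    have h5 : {I : Ideal (𝓞 K) | Ideal.absNorm I ≤ n} = {I : Ideal (𝓞 K) | (Ideal.absNorm I : ℝ) ≤ (n : ℝ)} := by
      ext I
      simp only [Set.mem_ofPred_eq, Nat.cast_le]
    rw [h5]
    rfl
  have h6 : (S.card : ℝ) ≤ (Nat.card {I : Ideal (𝓞 K) // (Ideal.absNorm I : ℝ) ≤ (n : ℝ)} : ℝ) := by
    exact_mod_cast h3
  refine h6.trans (h2.le.trans ?_)
  exact mul_le_mul_of_nonneg_right (le_max_left _ _) (by linarith)

/-- The tail of the sum of the inverse squares of the norms of the ideals.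

PROOF: By `NumberField.Ideal.tendsto_norm_le_div_atTop` (or `..._atTop₀`) there is `A` with
`#{I | N(I) ≤ s} ≤ A s` for all natural numbers `s ≥ 1` (a convergent sequence is bounded; note the version with
nonzero ideals). For a finite set `S` of nonzero ideals with `N(I) > G` (`G ≥ 1`) split it according to
`2 ^ k G < N(I) ≤ 2 ^ (k + 1) G`: the sum is at most `∑_k A 2 ^ (k + 1) G / (2 ^ k G) ^ 2 = (2 A / G) ∑_k 2 ^ (-k) ≤ 4 A / G`.
Alternatively Abel summation. Take `G ≥ 4 A / η`. -/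
theorem tail (K : Type u) [Field K] [NumberField K] {η : ℝ} (hη : 0 < η) : ∃ G : ℕ, ∀ S : Finset (Ideal (𝓞 K)),
    (∀ I ∈ S, I ≠ ⊥ ∧ G < Ideal.absNorm I) → ∑ I ∈ S, 1 / (Ideal.absNorm I : ℝ) ^ 2 ≤ η := by
  classical
  obtain ⟨A, s0, hA, hs0, hcount⟩ := C3_count K
  obtain ⟨G, hG⟩ := exists_nat_ge (max s0 (4 * A / η))
  have hGs : s0 ≤ G := (le_max_left _ _).trans hG
  have hG1 : (1 : ℝ) ≤ G := hs0.trans hGs
  have hG0 : (0 : ℝ) < G := by linarith
  have hGn : 0 < G := by exact_mod_cast hG0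
  refine ⟨G, fun S hS => ?_⟩
  set kf : Ideal (𝓞 K) → ℕ := fun I => Nat.log 2 (Ideal.absNorm I / G) with hkf
  have hmaps : ∀ I ∈ S, kf I ∈ Finset.range (S.sup kf + 1) := by
    intro I hI
    rw [Finset.mem_range]
    exact Nat.lt_succ_of_le (Finset.le_sup (f := kf) hI)
  rw [← Finset.sum_fiberwise_of_maps_to hmaps]
  have hk : ∀ k ∈ Finset.range (S.sup kf + 1),
      ∑ I ∈ S with kf I = k, 1 / (Ideal.absNorm I : ℝ) ^ 2 ≤ 2 * A / G * (1 / (2 : ℝ)) ^ k := by
    intro k _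
    have hlow : ∀ I ∈ S.filter (fun I => kf I = k), 1 / (Ideal.absNorm I : ℝ) ^ 2 ≤ 1 / (2 ^ k * G : ℝ) ^ 2 := by
      intro I hI
      rw [Finset.mem_filter] at hI
      have h1 : Ideal.absNorm I / G ≠ 0 :=
        (Nat.div_pos (hS I hI.1).2.le hGn).ne'
      have h2 : 2 ^ k ≤ Ideal.absNorm I / G := by
        rw [← hI.2]
        exact Nat.pow_log_le_self 2 h1
      have h3 : 2 ^ k * G ≤ Ideal.absNorm I := (Nat.le_div_iff_mul_le hGn).mp h2
      have h4 : (2 ^ k * G : ℝ) ≤ Ideal.absNorm I := by exact_mod_cast h3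
      exact one_div_le_one_div_of_le (by positivity) (pow_le_pow_left₀ (by positivity) h4 2)
    have hcard : ((S.filter (fun I => kf I = k)).card : ℝ) ≤ A * ((2 ^ (k + 1) * G : ℕ) : ℝ) := by
      apply hcount
      · have h1 : G ≤ 2 ^ (k + 1) * G := Nat.le_mul_of_pos_left G (by positivity)
        have h2 : (G : ℝ) ≤ ((2 ^ (k + 1) * G : ℕ) : ℝ) := by exact_mod_cast h1
        exact hGs.trans h2
      · intro I hI
        rw [Finset.mem_filter] at hI
        have h2 : Ideal.absNorm I / G < 2 ^ (k + 1) := by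
          rw [← hI.2]
          exact Nat.lt_pow_succ_log_self (by norm_num) _
        exact ((Nat.div_lt_iff_lt_mul hGn).mp h2).le
    calc ∑ I ∈ S with kf I = k, 1 / (Ideal.absNorm I : ℝ) ^ 2
        ≤ ∑ I ∈ S with kf I = k, 1 / (2 ^ k * G : ℝ) ^ 2 := Finset.sum_le_sum hlow
      _ = ((S.filter (fun I => kf I = k)).card : ℝ) * (1 / (2 ^ k * G : ℝ) ^ 2) := by
          rw [Finset.sum_const, nsmul_eq_mul]
      _ ≤ A * ((2 ^ (k + 1) * G : ℕ) : ℝ) * (1 / (2 ^ k * G : ℝ) ^ 2) :=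
          mul_le_mul_of_nonneg_right hcard (by positivity)
      _ = 2 * A / G * (1 / (2 : ℝ)) ^ k := by
          push_cast
          rw [one_div_pow]
          field_simp
          ring
  refine (Finset.sum_le_sum hk).trans ?_
  rw [← Finset.mul_sum]
  have h1 := sum_geometric_two_le (S.sup kf + 1)
  have h2 : 4 * A / η ≤ G := (le_max_right _ _).trans hG
  have h3 : 4 * A / G ≤ η := by
    rw [div_le_iff₀ hη] at h2
    rw [div_le_iff₀ hG0]
    linarith
  calc 2 * A / G * ∑ i ∈ Finset.range (S.sup kf + 1), (1 / (2 : ℝ)) ^ i ≤ 2 * A / G * 2 :=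
        mul_le_mul_of_nonneg_left h1 (by positivity)
    _ = 4 * A / G := by ring
    _ ≤ η := h3

end Pool.Agent.Lib.MP_17a322_nt.MG
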