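import Pool.Agent.Lib.MP_17a322_nt.MG.C2
import Pool.Agent.Lib.MP_17a322_nt.MG.C3

/-!
Vectors of algebraic integers with a common factor of large norm.
-/

universe u

namespace Pool.Agent.Lib.MP_17a322_nt.MG

open NumberField

/-- The vectors with a common factor of large norm are few.

PROOF: Let `X` be a finite set of nonzero elements with `w x ≤ R`. The vectors `u : Fin (r + 1) → 𝓞 K` with entries in
`X` and `N(span (range u)) > G` lie in the union, over the ideals `I` with `G < N(I)` (those of the form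
`span (range u)`, a finite set), of the vectors with entries in `X ∩ I`, of which there are at most
`(C R ^ D / N(I)) ^ (r + 1)` by `ideal_box`. If `X ∩ I` is not empty then `N(I) ≤ R ^ D`, so that
`(R ^ D / N(I)) ^ (r + 1) ≤ (R ^ D) ^ (r + 1) / N(I) ^ 2` holds always (`r ≥ 1`, `N(I) ≥ 1`: this does not need
`N(I) ≤ R ^ D`). Sum with `tail`. -/
theorem few_bad (K : Type u) [Field K] [NumberField K] {r : ℕ} (hr : 1 ≤ r) {η : ℝ} (hη : 0 < η) :
    ∃ G : ℕ, ∀ R : ℝ, 1 ≤ R → ∀ X : Finset (𝓞 K), (∀ x ∈ X, x ≠ 0 ∧ ∀ w : InfinitePlace K, w (x : K) ≤ R) →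
      ((((Fintype.piFinset fun _ : Fin (r + 1) => X).filter fun u =>
        G < Ideal.absNorm (Ideal.span (Set.range u))).card : ℕ) : ℝ) ≤
          η * (R ^ Module.finrank ℚ K) ^ (r + 1) := by
  classical
  obtain ⟨C, hC, hbox⟩ := ideal_box K
  have hC0 : 0 < C := by linarith
  obtain ⟨G, hG⟩ := tail K (η := η / C ^ (r + 1)) (by positivity)
  refine ⟨G, fun R hR X hX => ?_⟩
  have hR0 : 0 ≤ R := by linarith
  obtain ⟨Φ, hΦ⟩ : ∃ Φ : Finset (Fin (r + 1) → 𝓞 K),
      Φ = (Fintype.piFinset fun _ : Fin (r + 1) => X).filter fun u =>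
        G < Ideal.absNorm (Ideal.span (Set.range u)) := ⟨_, rfl⟩
  rw [← hΦ]
  obtain ⟨J, hJ⟩ : ∃ J : (Fin (r + 1) → 𝓞 K) → Ideal (𝓞 K), J = fun u => Ideal.span (Set.range u) :=
    ⟨_, rfl⟩
  have hnorm : ∀ I ∈ Φ.image J, I ≠ ⊥ ∧ G < Ideal.absNorm I := by
    intro I hI
    obtain ⟨u, hu, rfl⟩ := Finset.mem_image.1 hI
    rw [hΦ] at hu
    have h1 := (Finset.mem_filter.1 hu).2
    rw [hJ]
    refine ⟨fun h => ?_, h1⟩
    have h2 : Ideal.span (Set.range u) = ⊥ := h
    rw [h2, Ideal.absNorm_bot] at h1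
    omega
  have hfib : ∀ I ∈ Φ.image J, (((Φ.filter fun u => J u = I).card : ℕ) : ℝ) ≤
      C ^ (r + 1) * (R ^ Module.finrank ℚ K) ^ (r + 1) * (1 / (Ideal.absNorm I : ℝ) ^ 2) := by
    intro I hI
    obtain ⟨hI0, hIG⟩ := hnorm I hI
    have h1 : (Φ.filter fun u => J u = I) ⊆
        Fintype.piFinset fun _ : Fin (r + 1) => X.filter fun x => x ∈ I := by
      intro u hu
      obtain ⟨hu1, hu2⟩ := Finset.mem_filter.1 hu
      rw [hΦ] at hu1
      have h3 := Fintype.mem_piFinset.1 (Finset.mem_filter.1 hu1).1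
      refine Fintype.mem_piFinset.2 fun i => Finset.mem_filter.2 ⟨h3 i, ?_⟩
      rw [← hu2, hJ]
      exact Ideal.subset_span ⟨i, rfl⟩
    have h2 : (((Φ.filter fun u => J u = I).card : ℕ) : ℝ) ≤
        ((X.filter fun x => x ∈ I).card : ℝ) ^ (r + 1) := by
      have h3 := Finset.card_le_card h1
      rw [Fintype.card_piFinset_const] at h3
      exact_mod_cast h3
    have h3 : (((X.filter fun x => x ∈ I).card : ℕ) : ℝ) ≤
        C * R ^ Module.finrank ℚ K / Ideal.absNorm I := by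
      refine hbox R hR I _ hI0 fun x hx => ?_
      obtain ⟨hx1, hx2⟩ := Finset.mem_filter.1 hx
      exact ⟨hx2, hX x hx1⟩
    have hN1 : (1 : ℝ) ≤ Ideal.absNorm I := by
      have : 1 ≤ Ideal.absNorm I := by omega
      exact_mod_cast this
    calc (((Φ.filter fun u => J u = I).card : ℕ) : ℝ)
        ≤ ((X.filter fun x => x ∈ I).card : ℝ) ^ (r + 1) := h2
      _ ≤ (C * R ^ Module.finrank ℚ K / Ideal.absNorm I) ^ (r + 1) :=
          pow_le_pow_left₀ (Nat.cast_nonneg _) h3 _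
      _ = C ^ (r + 1) * (R ^ Module.finrank ℚ K) ^ (r + 1) *
            (1 / (Ideal.absNorm I : ℝ) ^ (r + 1)) := by
          rw [div_pow, mul_pow, mul_one_div]
      _ ≤ _ := by
          refine mul_le_mul_of_nonneg_left ?_ (by positivity)
          exact one_div_le_one_div_of_le (by positivity) (pow_le_pow_right₀ hN1 (by omega))
  have hcard : ((Φ.card : ℕ) : ℝ) = ∑ I ∈ Φ.image J, (((Φ.filter fun u => J u = I).card : ℕ) : ℝ) := by
    rw [Finset.card_eq_sum_card_image J Φ]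
    push_cast
    rfl
  rw [hcard]
  calc ∑ I ∈ Φ.image J, (((Φ.filter fun u => J u = I).card : ℕ) : ℝ)
      ≤ ∑ I ∈ Φ.image J, C ^ (r + 1) * (R ^ Module.finrank ℚ K) ^ (r + 1) *
          (1 / (Ideal.absNorm I : ℝ) ^ 2) := Finset.sum_le_sum hfib
    _ = C ^ (r + 1) * (R ^ Module.finrank ℚ K) ^ (r + 1) *
          ∑ I ∈ Φ.image J, 1 / (Ideal.absNorm I : ℝ) ^ 2 := (Finset.mul_sum _ _ _).symm
    _ ≤ C ^ (r + 1) * (R ^ Module.finrank ℚ K) ^ (r + 1) * (η / C ^ (r + 1)) :=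
        mul_le_mul_of_nonneg_left (hG _ hnorm) (by positivity)
    _ = η * (R ^ Module.finrank ℚ K) ^ (r + 1) := by
        have : C ^ (r + 1) ≠ 0 := by positivity
        field_simp

end Pool.Agent.Lib.MP_17a322_nt.MG
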