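import Pool.Agent.Lib.MP_17a322_nt.MG.C1
import Pool.Agent.Lib.MP_17a322_nt.MG.C4a

/-!
Many vectors of algebraic integers with coordinates of the same size and with almost no common factor.
-/

universe u

namespace Pool.Agent.Lib.MP_17a322_nt.MG

open NumberField MvPolynomial

open Classical in
/-- The number of the zeros of a polynomial in a cube of algebraic integers. -/
private theorem good_zeros {K : Type u} [Field K] [NumberField K] {r d : ℕ} (X : Finset (𝓞 K)) (hX : 0 < X.card)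
    {F : MvPolynomial (Fin (r + 1)) K} (hF : F ≠ 0) (hd : F.totalDegree ≤ d) :
    ((((Fintype.piFinset fun _ : Fin (r + 1) => X).filter fun u : Fin (r + 1) → 𝓞 K =>
      eval (fun i => (u i : K)) F = 0).card : ℕ) : ℝ) ≤ d * (X.card : ℝ) ^ r := by
  classical
  have hinj : Function.Injective (fun x : 𝓞 K => (x : K)) := RingOfIntegers.coe_injective
  set Y : Finset K := X.image (fun x : 𝓞 K => (x : K)) with hY
  have hYc : Y.card = X.card := Finset.card_image_of_injective _ hinj
  have h1 := MvPolynomial.schwartz_zippel_totalDegree hF Y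
  have h2 : ((Fintype.piFinset fun _ : Fin (r + 1) => X).filter fun u =>
      eval (fun i => (u i : K)) F = 0).card ≤
      ((Fintype.piFinset fun _ : Fin (r + 1) => Y).filter fun f => eval f F = 0).card := by
    refine Finset.card_le_card_of_injOn (fun u i => (u i : K)) ?_ ?_
    · intro u hu
      have hu' := Finset.mem_filter.1 (Finset.mem_coe.1 hu)
      refine Finset.mem_coe.2 (Finset.mem_filter.2 ⟨?_, hu'.2⟩)
      rw [Fintype.mem_piFinset]
      intro i
      exact Finset.mem_image_of_mem _ (Fintype.mem_piFinset.1 hu'.1 i)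
    · intro u _ v _ h
      funext i
      exact hinj (congrFun h i)
  rw [hYc] at h1
  have hXq : (0 : ℚ≥0) < (X.card : ℚ≥0) := by exact_mod_cast hX
  have h3 : ((((Fintype.piFinset fun _ : Fin (r + 1) => Y).filter fun f => eval f F = 0).card : ℕ) : ℚ≥0) ≤
      (F.totalDegree : ℚ≥0) * (X.card : ℚ≥0) ^ r := by
    have e := (div_le_div_iff₀ (pow_pos hXq (r + 1)) hXq).1 h1
    rw [pow_succ, ← mul_assoc] at e
    exact le_of_mul_le_mul_right e hXq
  have h4 : (((Fintype.piFinset fun _ : Fin (r + 1) => Y).filter fun f => eval f F = 0).card) ≤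
      F.totalDegree * X.card ^ r := by exact_mod_cast h3
  have h5 : ((Fintype.piFinset fun _ : Fin (r + 1) => X).filter fun u =>
      eval (fun i => (u i : K)) F = 0).card ≤ d * X.card ^ r :=
    h2.trans (h4.trans (Nat.mul_le_mul_right _ hd))
  exact_mod_cast h5

/-- Many good vectors outside a hypersurface.

PROOF: `X = X_R` from `box` (`0 < c`, `C`), `|X| ≥ c R ^ D`, elements nonzero since `w x ≥ R / C > 0`. `|X| ≤ C' R ^ D` by
`ideal_box` for `I = ⊤`. By the Schwartz-Zippel lemma (`MvPolynomial.schwartz_zippel_totalDegree` for the image of `X`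
in `K`, the coercion is injective) at most `d |X| ^ r` vectors in `X ^ (r + 1)` satisfy `F = 0`. Take `η` with
`η ≤ c ^ (r + 1) / 4` in `few_bad`. The number of the remaining vectors is at least
`|X| ^ (r + 1) - d |X| ^ r - η (R ^ D) ^ (r + 1)`; if `d ≤ |X| / 4` (true for `R ≥ C₁`) this is at least
`(3 / 4) c ^ (r + 1) (R ^ D) ^ (r + 1) - (1 / 4) c ^ (r + 1) (R ^ D) ^ (r + 1)`. -/
theorem good (K : Type u) [Field K] [NumberField K] {r : ℕ} (hr : 1 ≤ r) (d : ℕ) :
    ∃ (c C : ℝ) (G : ℕ), 0 < c ∧ 1 ≤ C ∧ ∀ R : ℝ, C ≤ R → ∀ F : MvPolynomial (Fin (r + 1)) K, F ≠ 0 →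
      F.totalDegree ≤ d → ∃ S : Finset (Fin (r + 1) → 𝓞 K),
        (∀ u ∈ S, (∀ i, ∀ w : InfinitePlace K, R / C ≤ w (u i : K) ∧ w (u i : K) ≤ R) ∧
          Ideal.absNorm (Ideal.span (Set.range u)) ≤ G ∧ eval (fun i => (u i : K)) F ≠ 0) ∧
        c * (R ^ Module.finrank ℚ K) ^ (r + 1) ≤ S.card := by
  classical
  obtain ⟨c, C, hc, hC, hbox⟩ := box K
  have hη : (0 : ℝ) < c ^ (r + 1) / 4 := by positivity
  obtain ⟨G, hG⟩ := few_bad K hr hη
  refine ⟨c ^ (r + 1) / 2, C + 4 * d / c, G, by positivity, ?_, ?_⟩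
  · have : (0 : ℝ) ≤ 4 * d / c := by positivity
    linarith
  intro R hR F hF hd
  have hd0 : (0 : ℝ) ≤ 4 * d / c := by positivity
  have hRC : C ≤ R := by linarith
  have hR1 : 1 ≤ R := hC.trans hRC
  have hR0 : 0 < R := by linarith
  obtain ⟨X, hX1, hX2⟩ := hbox R hR1
  have hD : Module.finrank ℚ K ≠ 0 := Module.finrank_pos.ne'
  have hRD : R ≤ R ^ Module.finrank ℚ K := le_self_pow₀ hR1 hD
  have hRD0 : 0 < R ^ Module.finrank ℚ K := by positivity
  have hXpos : (0 : ℝ) < X.card := lt_of_lt_of_le (by positivity) hX2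
  have hXd : 4 * (d : ℝ) ≤ X.card := by
    have h1 : 4 * (d : ℝ) / c ≤ R := by linarith
    have h2 : 4 * (d : ℝ) ≤ R * c := (div_le_iff₀ hc).1 h1
    nlinarith
  have hX0 : ∀ x ∈ X, x ≠ 0 ∧ ∀ w : InfinitePlace K, w (x : K) ≤ R := by
    intro x hx
    refine ⟨?_, fun w => (hX1 x hx w).2⟩
    rintro rfl
    obtain ⟨w⟩ := (inferInstance : Nonempty (InfinitePlace K))
    have h1 := (hX1 0 hx w).1
    have h2 : w ((0 : 𝓞 K) : K) = 0 := by simp
    rw [h2] at h1
    have h3 : 0 < R / C := by positivity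
    linarith
  have hbad := hG R hR1 X hX0
  have hz := good_zeros (r := r) X (by exact_mod_cast hXpos) hF hd
  set P : Finset (Fin (r + 1) → 𝓞 K) := Fintype.piFinset fun _ : Fin (r + 1) => X with hP
  have hPc : P.card = X.card ^ (r + 1) := by
    rw [hP, Fintype.card_piFinset]
    simp
  refine ⟨P.filter fun u : Fin (r + 1) → 𝓞 K => Ideal.absNorm (Ideal.span (Set.range u)) ≤ G ∧
    eval (fun i => (u i : K)) F ≠ 0, ?_, ?_⟩
  · intro u hu
    obtain ⟨hu1, hu2, hu3⟩ := Finset.mem_filter.1 hu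
    refine ⟨fun i w => ?_, hu2, hu3⟩
    have hx := hX1 (u i) (Fintype.mem_piFinset.1 hu1 i) w
    refine ⟨le_trans ?_ hx.1, hx.2⟩
    exact div_le_div_of_nonneg_left hR0.le (by linarith) (by linarith)
  · have hcov : P ⊆ (P.filter fun u : Fin (r + 1) → 𝓞 K => Ideal.absNorm (Ideal.span (Set.range u)) ≤ G ∧
        eval (fun i => (u i : K)) F ≠ 0) ∪
        ((P.filter fun u : Fin (r + 1) → 𝓞 K => eval (fun i => (u i : K)) F = 0) ∪
          (P.filter fun u : Fin (r + 1) → 𝓞 K => G < Ideal.absNorm (Ideal.span (Set.range u)))) := by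
      intro u hu
      rw [Finset.mem_union, Finset.mem_union, Finset.mem_filter, Finset.mem_filter, Finset.mem_filter]
      by_cases h1 : eval (fun i => (u i : K)) F = 0
      · exact Or.inr (Or.inl ⟨hu, h1⟩)
      · by_cases h2 : Ideal.absNorm (Ideal.span (Set.range u)) ≤ G
        · exact Or.inl ⟨hu, h2, h1⟩
        · exact Or.inr (Or.inr ⟨hu, not_le.1 h2⟩)
    have hcard := (Finset.card_le_card hcov).trans ((Finset.card_union_le _ _).trans
      (Nat.add_le_add_left (Finset.card_union_le _ _) _))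
    have hcard' : (X.card : ℝ) ^ (r + 1) ≤
        ((P.filter fun u : Fin (r + 1) → 𝓞 K => Ideal.absNorm (Ideal.span (Set.range u)) ≤ G ∧
          eval (fun i => (u i : K)) F ≠ 0).card : ℝ) +
        (((P.filter fun u : Fin (r + 1) → 𝓞 K => eval (fun i => (u i : K)) F = 0).card : ℝ) +
          ((P.filter fun u : Fin (r + 1) → 𝓞 K => G < Ideal.absNorm (Ideal.span (Set.range u))).card : ℝ)) := by
      rw [hPc] at hcard
      exact_mod_cast hcard
    have hpow : c ^ (r + 1) * (R ^ Module.finrank ℚ K) ^ (r + 1) ≤ (X.card : ℝ) ^ (r + 1) := by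
      rw [← mul_pow]
      exact pow_le_pow_left₀ (by positivity) hX2 _
    have hzz : (d : ℝ) * (X.card : ℝ) ^ r ≤ (X.card : ℝ) ^ (r + 1) / 4 := by
      rw [pow_succ]
      have h1 : (0 : ℝ) ≤ (X.card : ℝ) ^ r := by positivity
      nlinarith
    have hfin : c ^ (r + 1) / 2 * (R ^ Module.finrank ℚ K) ^ (r + 1) =
        c ^ (r + 1) * (R ^ Module.finrank ℚ K) ^ (r + 1) / 2 := by ring
    have hfin2 : c ^ (r + 1) / 4 * (R ^ Module.finrank ℚ K) ^ (r + 1) =
        c ^ (r + 1) * (R ^ Module.finrank ℚ K) ^ (r + 1) / 4 := by ring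
    rw [hfin2] at hbad
    rw [hfin]
    linarith

end Pool.Agent.Lib.MP_17a322_nt.MG
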