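import Mathlib

/-!
Proportional vectors of algebraic integers with coordinates of the same size and with almost no common factor.
-/

universe u

namespace Pool.Agent.Lib.MP_17a322_nt.MG

open NumberField

/-- The number of the good vectors proportional to a given one is bounded.

PROOF: Let `u, u'` be good, `u' = a u`. Then `1 / C ≤ w a ≤ C` for all infinite places `w` (`w (u' 0) = w a * w (u 0)`,
`R / C ≤ w ≤ R`). Let `m = N(span (range u))`, `1 ≤ m ≤ G` (the ideal is not zero as `u 0 ≠ 0`); `m` lies in the ideal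
(`Ideal.absNorm_mem`), so `m = ∑ b_i u_i` and `m a = ∑ b_i u'_i =: b ∈ 𝓞 K`, with
`w b ≤ G C` for all `w`. There are only finitely many such `b` (`NumberField.Embeddings.finite_of_norm_le`, with
`InfinitePlace` / complex embeddings), say `M₀`. For the given `u` the vector `u'` is determined by `b`
(`u' = (b / m) u`), so the number is at most `M₀`. -/
theorem mult (K : Type u) [Field K] [NumberField K] (r : ℕ) (C : ℝ) (G : ℕ) : ∃ M : ℕ, ∀ R : ℝ, 1 ≤ R →
    ∀ (u : Fin (r + 1) → 𝓞 K) (S : Finset (Fin (r + 1) → 𝓞 K)),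
      (∀ i, ∀ w : InfinitePlace K, R / C ≤ w (u i : K) ∧ w (u i : K) ≤ R) →
      Ideal.absNorm (Ideal.span (Set.range u)) ≤ G → 1 ≤ C →
      (∀ u' ∈ S, (∀ i, ∀ w : InfinitePlace K, R / C ≤ w (u' i : K) ∧ w (u' i : K) ≤ R) ∧
        ∃ a : K, ∀ i, (u' i : K) = a * (u i : K)) → S.card ≤ M := by
  classical
  have hfin := NumberField.Embeddings.finite_of_norm_le K ℂ ((G : ℝ) * C)
  refine ⟨hfin.toFinset.card, ?_⟩
  intro R hR u S hu hG hC hS
  have hC0 : 0 < C := lt_of_lt_of_le one_pos hC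
  have hR0 : 0 < R := lt_of_lt_of_le one_pos hR
  obtain ⟨w0⟩ : Nonempty (InfinitePlace K) := inferInstance
  have hu0 : (u 0 : K) ≠ 0 := by
    intro h
    have h1 := (hu 0 w0).1
    rw [h, map_zero] at h1
    exact absurd h1 (not_le.mpr (div_pos hR0 hC0))
  set I : Ideal (𝓞 K) := Ideal.span (Set.range u) with hI
  have hI0 : I ≠ ⊥ := by
    intro h
    have h2 : u 0 ∈ I := Ideal.subset_span ⟨0, rfl⟩
    rw [h, Ideal.mem_bot] at h2
    exact hu0 (by rw [h2]; rfl)
  set m : ℕ := Ideal.absNorm I with hm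
  have hm0 : m ≠ 0 := by
    intro h
    exact hI0 (Ideal.absNorm_eq_zero_iff.mp h)
  have hmK : (m : K) ≠ 0 := by exact_mod_cast hm0
  obtain ⟨b, hb⟩ : ∃ b : Fin (r + 1) → 𝓞 K, ∑ i, b i * u i = (m : 𝓞 K) := by
    have h3 : (m : 𝓞 K) ∈ I := Ideal.absNorm_mem I
    rw [hI] at h3
    exact Ideal.mem_span_range_iff_exists_fun.mp h3
  have hinj : Set.InjOn (fun u' : Fin (r + 1) → 𝓞 K => (m : K) * ((u' 0 : K) / (u 0 : K))) (S : Set _) := by
    intro x hx y hy hxy
    obtain ⟨a, ha⟩ := (hS x hx).2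
    obtain ⟨a', ha'⟩ := (hS y hy).2
    have h4 : (x 0 : K) / (u 0 : K) = (y 0 : K) / (u 0 : K) := mul_left_cancel₀ hmK hxy
    rw [ha 0, ha' 0, mul_div_assoc, mul_div_assoc, div_self hu0, mul_one, mul_one] at h4
    funext i
    apply NumberField.RingOfIntegers.ext
    rw [ha i, ha' i, h4]
  have hmaps : ∀ u' ∈ S, (fun u' : Fin (r + 1) → 𝓞 K => (m : K) * ((u' 0 : K) / (u 0 : K))) u' ∈ hfin.toFinset := by
    intro x hx
    obtain ⟨hx1, a, ha⟩ := hS x hx
    have haq : (x 0 : K) / (u 0 : K) = a := by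
      rw [ha 0, mul_div_assoc, div_self hu0, mul_one]
    rw [Set.Finite.mem_toFinset]
    refine ⟨?_, ?_⟩
    · have h5 : (m : K) * ((x 0 : K) / (u 0 : K)) = ((∑ i, b i * x i : 𝓞 K) : K) := by
        rw [haq]
        have h6 : (m : K) = ((∑ i, b i * u i : 𝓞 K) : K) := by
          rw [hb]; simp
        have h12 : ((∑ i, b i * u i : 𝓞 K) : K) = ∑ i, (b i : K) * (u i : K) := by
          rw [NumberField.RingOfIntegers.coe_eq_algebraMap, map_sum]
          exact Finset.sum_congr rfl fun i _ => map_mul _ _ _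
        have h13 : ((∑ i, b i * x i : 𝓞 K) : K) = ∑ i, (b i : K) * (x i : K) := by
          rw [NumberField.RingOfIntegers.coe_eq_algebraMap, map_sum]
          exact Finset.sum_congr rfl fun i _ => map_mul _ _ _
        rw [h6, h12, h13, Finset.sum_mul]
        refine Finset.sum_congr rfl fun i _ => ?_
        rw [ha i]
        ring
      show IsIntegral ℤ ((m : K) * ((x 0 : K) / (u 0 : K)))
      rw [h5]
      exact NumberField.RingOfIntegers.isIntegral_coe _
    · intro φ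
      show ‖φ ((m : K) * ((x 0 : K) / (u 0 : K)))‖ ≤ (G : ℝ) * C
      have h7 : ∀ z : K, ‖φ z‖ = InfinitePlace.mk φ z := fun z => rfl
      rw [map_mul, norm_mul, map_natCast, map_div₀, norm_div]
      have hmG : ‖(m : ℂ)‖ ≤ (G : ℝ) := by
        rw [Complex.norm_natCast]
        exact_mod_cast hG
      have h8 : ‖φ (x 0 : K)‖ ≤ R := by rw [h7]; exact (hx1 0 _).2
      have h9 : R / C ≤ ‖φ (u 0 : K)‖ := by rw [h7]; exact (hu 0 _).1
      have h10 : 0 < ‖φ (u 0 : K)‖ := lt_of_lt_of_le (div_pos hR0 hC0) h9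
      have h11 : ‖φ (x 0 : K)‖ / ‖φ (u 0 : K)‖ ≤ C := by
        rw [div_le_iff₀ h10]
        calc ‖φ (x 0 : K)‖ ≤ R := h8
          _ = C * (R / C) := by field_simp
          _ ≤ C * ‖φ (u 0 : K)‖ := mul_le_mul_of_nonneg_left h9 hC0.le
      exact mul_le_mul hmG h11 (div_nonneg (norm_nonneg _) (norm_nonneg _)) (Nat.cast_nonneg _)
  exact Finset.card_le_card_of_injOn _ hmaps hinj

end Pool.Agent.Lib.MP_17a322_nt.MG
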