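import Mathlib

/-!
Systems of representatives.
-/

namespace Pool.Agent.Lib.MP_17a322_nt.MG

/-- A system of representatives. PROOF: take a subset `S'` of `S` of maximal cardinality with
`∀ u ∈ S', ∀ v ∈ S', rel u v → u = v`. Every `v ∈ S` satisfies `rel u v` for some `u ∈ S'` (if `v ∉ S'`, then
`insert v S'` does not have the property; use symmetry), so `S ⊆ S'.biUnion fun u => S.filter (rel u)`. -/
theorem transversal {V : Type*} (S : Finset V) (rel : V → V → Prop) (hrefl : ∀ u, rel u u)
    (hsymm : ∀ u v, rel u v → rel v u) {M : ℕ}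
    (hM : ∀ u ∈ S, ∀ T : Finset V, (∀ v ∈ T, v ∈ S ∧ rel u v) → T.card ≤ M) :
    ∃ S' ⊆ S, (∀ u ∈ S', ∀ v ∈ S', rel u v → u = v) ∧ S.card ≤ M * S'.card := by
  classical
  obtain ⟨S', hS', hmax⟩ := Finset.exists_max_image
    (S.powerset.filter fun A : Finset V => ∀ u ∈ A, ∀ v ∈ A, rel u v → u = v) Finset.card ⟨∅, by simp⟩
  rw [Finset.mem_filter, Finset.mem_powerset] at hS'
  obtain ⟨hsub, hP⟩ := hS'
  refine ⟨S', hsub, hP, ?_⟩
  have hcov : ∀ v ∈ S, ∃ u ∈ S', rel u v := by
    intro v hv
    by_contra hcon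
    have hno : ∀ u ∈ S', ¬ rel u v := fun u hu h => hcon ⟨u, hu, h⟩
    have hv' : v ∉ S' := fun h => hno v h (hrefl v)
    have hmem : insert v S' ∈ S.powerset.filter fun A : Finset V => ∀ u ∈ A, ∀ v ∈ A, rel u v → u = v := by
      rw [Finset.mem_filter, Finset.mem_powerset]
      refine ⟨Finset.insert_subset hv hsub, fun a ha b hb hab => ?_⟩
      rw [Finset.mem_insert] at ha hb
      rcases ha with rfl | ha
      · rcases hb with rfl | hb
        · rfl
        · exact absurd (hsymm _ _ hab) (hno b hb)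
      · rcases hb with rfl | hb
        · exact absurd hab (hno a ha)
        · exact hP a ha b hb hab
    have h1 := hmax _ hmem
    rw [Finset.card_insert_of_notMem hv'] at h1
    omega
  have h2 : S ⊆ S'.biUnion fun u => S.filter fun v => rel u v := by
    intro v hv
    obtain ⟨u, hu, huv⟩ := hcov v hv
    exact Finset.mem_biUnion.2 ⟨u, hu, Finset.mem_filter.2 ⟨hv, huv⟩⟩
  calc S.card ≤ (S'.biUnion fun u => S.filter fun v => rel u v).card := Finset.card_le_card h2
    _ ≤ ∑ u ∈ S', (S.filter fun v => rel u v).card := Finset.card_biUnion_le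
    _ ≤ S'.card • M := Finset.sum_le_card_nsmul _ _ _ fun u hu =>
        hM u (hsub hu) _ fun v hv => Finset.mem_filter.1 hv
    _ = M * S'.card := by rw [smul_eq_mul, Nat.mul_comm]

end Pool.Agent.Lib.MP_17a322_nt.MG
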