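import Mathlib

/-!
The height of a vector of algebraic integers.
-/

universe u

namespace Pool.Agent.Lib.MP_17a322_nt.MG

open NumberField Height

/-- The height of a vector of algebraic integers. PROOF: `logHeight` is the sum over the infinite places `w` of
`mult w * log (max_i w (u i))` plus the sum over the finite places of `log (max_i v (u i)) ≤ 0`
(`NumberField.mulHeight_eq` or the formulas in `EQ/Defs.lean`'s users, e.g. `FL` / `GR` files: search for
`logHeight` and `FinitePlace`), and `∑ mult w = finrank ℚ K`. -/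
theorem lh_int (K : Type u) [Field K] [NumberField K] {r : ℕ} {u : Fin (r + 1) → 𝓞 K} (hu : u ≠ 0) {R : ℝ}
    (hR : 1 ≤ R) (h : ∀ i, ∀ w : InfinitePlace K, w (u i : K) ≤ R) :
    logHeight (fun i => (u i : K)) ≤ Module.finrank ℚ K * Real.log R := by
  have hx' : (fun i => (u i : K)) ≠ 0 := by
    intro h0
    apply hu
    funext i
    have h1 := congrFun h0 i
    simp only [Pi.zero_apply] at h1
    exact_mod_cast h1
  have hfin : ∏ᶠ v : FinitePlace K, ⨆ i, v (u i : K) ≤ 1 := by
    have h1 := absNorm_mul_finprod_finitePlace_eq_one (K := K) hu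
    set N := (Ideal.span (Set.range u)).absNorm with hN
    set f := ∏ᶠ v : FinitePlace K, ⨆ i, v (u i : K) with hf
    have hN0 : N ≠ 0 := by
      intro h0
      rw [h0, Nat.cast_zero, zero_mul] at h1
      exact zero_ne_one h1
    have hN1 : (1 : ℝ) ≤ N := by exact_mod_cast Nat.one_le_iff_ne_zero.mpr hN0
    nlinarith
  have hfin0 : 0 ≤ ∏ᶠ v : FinitePlace K, ⨆ i, v (u i : K) :=
    finprod_nonneg fun v => Real.iSup_nonneg fun i => apply_nonneg v _
  have hinf : ∏ v : InfinitePlace K, (⨆ i, v (u i : K)) ^ v.mult ≤ R ^ Module.finrank ℚ K := by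
    rw [← InfinitePlace.sum_mult_eq, ← Finset.prod_pow_eq_pow_sum]
    apply Finset.prod_le_prod
    · intro v _
      exact pow_nonneg (Real.iSup_nonneg fun i => apply_nonneg v _) _
    · intro v _
      apply pow_le_pow_left₀ (Real.iSup_nonneg fun i => apply_nonneg v _)
      exact ciSup_le fun i => h i v
  have hmul : mulHeight (fun i => (u i : K)) ≤ R ^ Module.finrank ℚ K := by
    rw [NumberField.mulHeight_eq hx']
    calc _ ≤ R ^ Module.finrank ℚ K * 1 :=
          mul_le_mul hinf hfin hfin0 (pow_nonneg (zero_le_one.trans hR) _)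
      _ = _ := mul_one _
  rw [logHeight_eq_log_mulHeight, ← Real.log_pow]
  exact Real.log_le_log (mulHeight_pos _) hmul

end Pool.Agent.Lib.MP_17a322_nt.MG
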