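import Pool.Agent.Lib.MP_17a322_nt.MG.C4
import Pool.Agent.Lib.MP_17a322_nt.MG.C5
import Pool.Agent.Lib.MP_17a322_nt.MG.C6a
import Pool.Agent.Lib.MP_17a322_nt.MG.C6b

/-!
The number of the points of a projective space outside a hypersurface.
-/

universe u

namespace Pool.Agent.Lib.MP_17a322_nt.MG

open NumberField MvPolynomial Height

/-- The points of the projective space: for all `T ≥ C` there are at least `c exp ((r + 1) T)` of them of height at most
`T` outside a given hypersurface of degree at most `d`.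

PROOF: `c₀`, `C₀`, `G` from `good`, `M` from `mult` for `C₀`, `G`, `c = c₀ / (M + 1)`, `D = finrank ℚ K ≥ 1`. For
`T ≥ C := D * log C₀` put `R = exp (T / D) ≥ C₀ ≥ 1`, `(R ^ D) = exp T`. Take `S₀` from `good` and `S'` from `transversal`
for the relation `proportional` (`∃ a ≠ 0, ∀ i, u' i = a * u i`), `hM` by `mult`. The image of `S'` in
`Fin (r + 1) → K` has the same cardinality; `logHeight ≤ D log R = T` by `lh_int`. In the last clause `u' = a • u` with
`u' ≠ 0` gives `a ≠ 0`. -/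
theorem many (K : Type u) [Field K] [NumberField K] {r : ℕ} (hr : 1 ≤ r) (d : ℕ) :
    ∃ c C : ℝ, 0 < c ∧ ∀ T : ℝ, C ≤ T → ∀ F : MvPolynomial (Fin (r + 1)) K, F ≠ 0 → F.totalDegree ≤ d →
      ∃ S : Finset (Fin (r + 1) → K), (∀ u ∈ S, u ≠ 0 ∧ logHeight u ≤ T ∧ eval u F ≠ 0) ∧
        (∀ u ∈ S, ∀ u' ∈ S, (∃ a : K, u' = a • u) → u = u') ∧ c * Real.exp ((r + 1) * T) ≤ S.card := by
  classical
  obtain ⟨c₀, C₀, G, hc₀, hC₀, hgood⟩ := good K hr d
  obtain ⟨M, hM⟩ := mult K r C₀ G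
  have hD : (0 : ℝ) < (Module.finrank ℚ K : ℝ) := by
    exact_mod_cast Module.finrank_pos
  have hC₀' : (0 : ℝ) < C₀ := lt_of_lt_of_le one_pos hC₀
  refine ⟨c₀ / (M + 1), Module.finrank ℚ K * Real.log C₀, by positivity, ?_⟩
  intro T hT F hF hFd
  have hR : C₀ ≤ Real.exp (T / Module.finrank ℚ K) := by
    rw [← Real.exp_log hC₀']
    apply Real.exp_le_exp.2
    rw [le_div_iff₀ hD, mul_comm]
    exact hT
  have hR1 : (1 : ℝ) ≤ Real.exp (T / Module.finrank ℚ K) := hC₀.trans hR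
  have hRD : Real.exp (T / Module.finrank ℚ K) ^ Module.finrank ℚ K = Real.exp T := by
    rw [← Real.exp_nat_mul]
    congr 1
    field_simp
  obtain ⟨S₀, hS₀, hcard⟩ := hgood _ hR F hF hFd
  have hne : ∀ u ∈ S₀, ∀ i, (u i : K) ≠ 0 := by
    intro u hu i h0
    obtain ⟨w⟩ := (inferInstance : Nonempty (InfinitePlace K))
    have h := ((hS₀ u hu).1 i w).1
    rw [h0, map_zero] at h
    have : 0 < Real.exp (T / Module.finrank ℚ K) / C₀ := by positivity
    linarith
  obtain ⟨S', hS'sub, hS'rel, hS'card⟩ := transversal S₀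
    (fun u v : Fin (r + 1) → 𝓞 K => ∃ a : K, a ≠ 0 ∧ ∀ i, (v i : K) = a * (u i : K))
    (fun u => ⟨1, one_ne_zero, fun i => by rw [one_mul]⟩)
    (fun u v => by
      rintro ⟨a, ha, h⟩
      refine ⟨a⁻¹, inv_ne_zero ha, fun i => ?_⟩
      rw [h i, ← mul_assoc, inv_mul_cancel₀ ha, one_mul])
    (M := M) (by
      intro u hu U hU
      refine hM _ hR1 u U (hS₀ u hu).1 (hS₀ u hu).2.1 hC₀ ?_
      intro v hv
      obtain ⟨hv1, a, -, ha⟩ := hU v hv
      exact ⟨(hS₀ v hv1).1, a, ha⟩)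
  have hinj : Function.Injective (fun u : Fin (r + 1) → 𝓞 K => (fun i => (u i : K))) := by
    intro u v h
    funext i
    exact NumberField.RingOfIntegers.ext (congrFun h i)
  refine ⟨S'.image (fun u : Fin (r + 1) → 𝓞 K => (fun i => (u i : K))), ?_, ?_, ?_⟩
  · intro u hu
    obtain ⟨v, hv, rfl⟩ := Finset.mem_image.1 hu
    have hv0 := hS'sub hv
    have hvne : v ≠ 0 := by
      intro h
      apply hne v hv0 0
      rw [h]
      simp
    refine ⟨?_, ?_, (hS₀ v hv0).2.2⟩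
    · intro h
      exact hne v hv0 0 (congrFun h 0)
    · refine (lh_int K hvne hR1 fun i w => ((hS₀ v hv0).1 i w).2).trans ?_
      rw [Real.log_exp]
      apply le_of_eq
      field_simp
  · intro u hu u' hu'
    obtain ⟨v, hv, rfl⟩ := Finset.mem_image.1 hu
    obtain ⟨v', hv', rfl⟩ := Finset.mem_image.1 hu'
    rintro ⟨a, ha⟩
    have ha' : ∀ i, (v' i : K) = a * (v i : K) := fun i => congrFun ha i
    have ha0 : a ≠ 0 := by
      intro h
      apply hne v' (hS'sub hv') 0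
      rw [ha' 0, h, zero_mul]
    rw [hS'rel v hv v' hv' ⟨a, ha0, ha'⟩]
  · rw [Finset.card_image_of_injective _ hinj]
    rw [hRD] at hcard
    have e : Real.exp ((r + 1) * T) = Real.exp T ^ (r + 1) := by
      rw [← Real.exp_nat_mul]
      push_cast
      rfl
    rw [e, div_mul_eq_mul_div, div_le_iff₀ (by positivity)]
    refine hcard.trans ?_
    calc (S₀.card : ℝ) ≤ ((M * S'.card : ℕ) : ℝ) := by exact_mod_cast hS'card
      _ ≤ (S'.card : ℝ) * (M + 1) := by
        push_cast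
        nlinarith [(Nat.cast_nonneg S'.card : (0 : ℝ) ≤ S'.card), (Nat.cast_nonneg M : (0 : ℝ) ≤ M)]

end Pool.Agent.Lib.MP_17a322_nt.MG
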