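import Pool.Agent.Lib.MP_17a322_nt.EQ.Int

/-!
The product with a projective space: definitions.
-/

universe u

namespace Pool.Agent.Lib.MP_17a322_nt.MG

open MvPolynomial
open Pool.Agent.Lib.MP_17a322_nt.EQ

variable {K : Type u} [Field K] {ι : Type}

/-- The ideal of the product with the projective space with the coordinates `Λ`. -/
noncomputable def qJ (Λ : Type) (J : Ideal (MvPolynomial ι K)) : Ideal (MvPolynomial (ι × Λ) K) :=
  gJ (R := MvPolynomial Λ (MvPolynomial ι K ⧸ J)) (fun i => C (gen J i)) X

end Pool.Agent.Lib.MP_17a322_nt.MG
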