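import Pool.Agent.Lib.MP_17a322_nt.MG.A1

/-!
The equation of a closed subset of the product at the fibres.
-/

set_option linter.unusedSectionVars false

universe u

namespace Pool.Agent.Lib.MP_17a322_nt.MG

open MvPolynomial
open Pool.Agent.Lib.MP_17a322_nt.EQ

private def D1_Good {K : Type u} [Field K] {ι Λ : Type} (e : ℕ) (P : MvPolynomial Λ (MvPolynomial ι K)) : Prop :=
  P.totalDegree ≤ e ∧ ∀ μ, (P.coeff μ).IsHomogeneous e

private theorem D1_sum {K : Type u} [Field K] {ι Λ : Type} {e : ℕ} {α : Type*} (s : Finset α)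
    (P : α → MvPolynomial Λ (MvPolynomial ι K)) (h : ∀ i ∈ s, D1_Good e (P i)) : D1_Good e (∑ i ∈ s, P i) := by
  refine ⟨totalDegree_finsetSum_le fun i hi => (h i hi).1, fun μ => ?_⟩
  rw [coeff_sum]
  exact IsHomogeneous.sum _ _ _ fun i hi => (h i hi).2 μ

private theorem D1_mul {K : Type u} [Field K] {ι Λ : Type} {a b : ℕ} {P Q : MvPolynomial Λ (MvPolynomial ι K)}
    (hP : D1_Good a P) (hQ : D1_Good b Q) : D1_Good (a + b) (P * Q) := by
  classical
  refine ⟨(totalDegree_mul P Q).trans (add_le_add hP.1 hQ.1), fun μ => ?_⟩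
  rw [coeff_mul]
  exact IsHomogeneous.sum _ _ _ fun x _ => (hP.2 x.1).mul (hQ.2 x.2)

private theorem D1_C {K : Type u} [Field K] {ι Λ : Type} (c : K) :
    D1_Good 0 (C (C c) : MvPolynomial Λ (MvPolynomial ι K)) := by
  classical
  refine ⟨by rw [totalDegree_C], fun μ => ?_⟩
  rw [coeff_C]
  split_ifs
  · exact isHomogeneous_C _ _
  · exact isHomogeneous_zero _ _ _

private theorem D1_one {K : Type u} [Field K] {ι Λ : Type} :
    D1_Good 0 (1 : MvPolynomial Λ (MvPolynomial ι K)) := by
  have h := D1_C (K := K) (ι := ι) (Λ := Λ) 1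
  rwa [C_1, C_1] at h

private theorem D1_X {K : Type u} [Field K] {ι Λ : Type} (i : ι) (l : Λ) :
    D1_Good 1 (C (X i) * X l : MvPolynomial Λ (MvPolynomial ι K)) := by
  classical
  refine ⟨?_, fun μ => ?_⟩
  · refine (totalDegree_mul _ _).trans ?_
    rw [totalDegree_C, totalDegree_X]
  · rw [coeff_C_mul, coeff_X]
    split_ifs
    · rw [mul_one]
      exact isHomogeneous_X _ _
    · rw [mul_zero]
      exact isHomogeneous_zero _ _ _

private theorem D1_pow {K : Type u} [Field K] {ι Λ : Type} {P : MvPolynomial Λ (MvPolynomial ι K)}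
    (hP : D1_Good 1 P) (n : ℕ) : D1_Good n (P ^ n) := by
  induction n with
  | zero => rw [pow_zero]; exact D1_one
  | succ n ih => rw [pow_succ]; exact D1_mul ih hP

private theorem D1_prod {K : Type u} [Field K] {ι Λ : Type} {α : Type*} (s : Finset α) (a : α → ℕ)
    (P : α → MvPolynomial Λ (MvPolynomial ι K)) (h : ∀ i ∈ s, D1_Good (a i) (P i)) :
    D1_Good (∑ i ∈ s, a i) (∏ i ∈ s, P i) := by
  classical
  induction s using Finset.induction_on with
  | empty => rw [Finset.sum_empty, Finset.prod_empty]; exact D1_one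
  | insert i s hi ih =>
    rw [Finset.sum_insert hi, Finset.prod_insert hi]
    exact D1_mul (h i (Finset.mem_insert_self i s)) (ih fun j hj => h j (Finset.mem_insert_of_mem hj))

private theorem D1_good {K : Type u} [Field K] {ι Λ : Type} {F : MvPolynomial (ι × Λ) K} {e : ℕ}
    (hF : F.IsHomogeneous e) :
    D1_Good e (aeval (fun z : ι × Λ => (C (X z.1) * X z.2 : MvPolynomial Λ (MvPolynomial ι K))) F) := by
  have h1 : aeval (fun z : ι × Λ => (C (X z.1) * X z.2 : MvPolynomial Λ (MvPolynomial ι K))) F =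
      ∑ d ∈ F.support, aeval (fun z : ι × Λ => (C (X z.1) * X z.2 : MvPolynomial Λ (MvPolynomial ι K)))
        (monomial d (coeff d F)) := by
    rw [← map_sum, support_sum_monomial_coeff]
  rw [h1]
  refine D1_sum _ _ fun d hd => ?_
  rw [aeval_monomial]
  have h2 : e = 0 + ∑ z ∈ d.support, d z := by
    rw [zero_add]
    have h3 : Finsupp.degree d = e := by
      rw [Finsupp.degree_eq_weight_one]
      exact hF (mem_support_iff.1 hd)
    exact h3.symm
  rw [h2]
  exact D1_mul (D1_C _) (D1_prod d.support d _ fun z _ => D1_pow (D1_X z.1 z.2) (d z))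

/-- A form which is not in the ideal of the product does not vanish on the fibres over general points.

PROOF: Let `P = aeval (fun z => C (X z.1) * X z.2) F : MvPolynomial Λ (MvPolynomial ι K)`. Every coefficient
`P.coeff μ` is a form of degree `e` (induction over the monomials of `F`, all of degree `e`), and `P` has total degree at
most `e`. The image of `P` under `map (Ideal.Quotient.mk J)` is `aeval (fun z => C (gen J z.1) * X z.2) F`, which is not
zero since `F ∉ qJ Λ J` (`mem_gJ`). So `P.coeff μ ∉ J` for some `μ`; take `G = P.coeff μ`. For `p` with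
`aeval p G ≠ 0` take `Q = map (aeval p) P : MvPolynomial Λ L`: its coefficient at `μ` is `aeval p G`, and
`eval t Q = aeval (sg p t) F` (induction on `F`). -/
theorem coef {K : Type u} [Field K] {ι Λ : Type} [Fintype ι] [Fintype Λ] {J : Ideal (MvPolynomial ι K)}
    {F : MvPolynomial (ι × Λ) K} {e : ℕ} (hF : F.IsHomogeneous e) (h : F ∉ qJ Λ J) :
    ∃ G : MvPolynomial ι K, G ∉ J ∧ G.IsHomogeneous e ∧ ∀ (L : Type u) [Field L] [Algebra K L] (p : ι → L),
      aeval p G ≠ 0 → ∃ Q : MvPolynomial Λ L, Q ≠ 0 ∧ Q.totalDegree ≤ e ∧ ∀ t : Λ → L,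
        eval t Q = aeval (sg p t) F := by
  set P : MvPolynomial Λ (MvPolynomial ι K) :=
    aeval (fun z : ι × Λ => (C (X z.1) * X z.2 : MvPolynomial Λ (MvPolynomial ι K))) F with hP
  obtain ⟨hdeg, hcoef⟩ := D1_good hF
  rw [← hP] at hdeg hcoef
  have h1 : ∀ F : MvPolynomial (ι × Λ) K, map (Ideal.Quotient.mk J)
      (aeval (fun z : ι × Λ => (C (X z.1) * X z.2 : MvPolynomial Λ (MvPolynomial ι K))) F) =
      aeval (fun z : ι × Λ => (C (gen J z.1) * X z.2 : MvPolynomial Λ (MvPolynomial ι K ⧸ J))) F := by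
    intro F
    induction F using MvPolynomial.induction_on with
    | C a =>
      rw [aeval_C, aeval_C, MvPolynomial.algebraMap_apply, MvPolynomial.algebraMap_apply, map_C]
      rfl
    | add p q hp hq => rw [map_add, map_add, map_add, hp, hq]
    | mul_X p z hp => rw [map_mul, map_mul, map_mul, hp, aeval_X, aeval_X, map_mul, map_C, map_X]; rfl
  have h2 : map (Ideal.Quotient.mk J) P ≠ 0 := by
    rw [hP, h1]
    intro h0
    exact h (mem_gJ.2 h0)
  obtain ⟨μ, hμ⟩ := MvPolynomial.exists_coeff_ne_zero h2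
  rw [coeff_map] at hμ
  refine ⟨P.coeff μ, fun hm => hμ (Ideal.Quotient.eq_zero_iff_mem.2 hm), hcoef μ, ?_⟩
  intro L _ _ p hp
  refine ⟨map (aeval p : MvPolynomial ι K →ₐ[K] L).toRingHom P, ?_, ?_, ?_⟩
  · intro h0
    apply hp
    have h3 := congrArg (coeff μ) h0
    rw [coeff_map, coeff_zero] at h3
    exact h3
  · refine le_trans ?_ hdeg
    exact Finset.sup_mono (support_map_subset _ _)
  · intro t
    rw [hP]
    have h4 : ∀ F : MvPolynomial (ι × Λ) K, eval t (map (aeval p : MvPolynomial ι K →ₐ[K] L).toRingHom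
        (aeval (fun z : ι × Λ => (C (X z.1) * X z.2 : MvPolynomial Λ (MvPolynomial ι K))) F)) =
        aeval (sg p t) F := by
      intro F
      induction F using MvPolynomial.induction_on with
      | C a =>
        rw [aeval_C, aeval_C, MvPolynomial.algebraMap_apply, map_C, eval_C]
        exact AlgHom.commutes _ a
      | add p q hp hq => rw [map_add, map_add, map_add, map_add, hp, hq]
      | mul_X q z hq =>
        rw [map_mul, map_mul, map_mul, map_mul, hq, aeval_X, aeval_X, map_mul, map_mul, map_C, map_X, eval_C, eval_X]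
        congr 1
        unfold sg
        congr 1
        exact aeval_X _ _
    exact h4 F

end Pool.Agent.Lib.MP_17a322_nt.MG
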