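import Pool.Agent.Lib.MP_17a322_nt.EQ.Defs

/-!
The number of the points with a lower bound for the canonical height: definitions.

Heights are not divided by the degree of the number field, see the file `EQ/Defs.lean`, which has the
definitions of `IsPt`, `hCan` and `Smooth`.
-/

universe u

namespace Pool.Agent.Lib.MP_17a322_nt.MG

open MvPolynomial Height NumberField
open Pool.Agent.Lib.MP_17a322_nt.EQ

/-- The bound with the exponent `α` for the number of the points of smooth projective varieties `Y` of dimension `d` over
`K` at which the anticanonical height is at most `α` times the height: for every `δ > 0` there are a proper closed subset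
`G = 0` of `Y` and a number `A` such that for every `T` at most `A exp ((α + δ) T)` points `p` of `Y` over `K` outside it
satisfy `h(p) ≤ T` and `- h_{K_Y}(p) ≤ α h(p)`. (`S` is a finite set of such points, given by vectors no two of which
are proportional.) For `α = d + 1` this is trivial, since the whole variety `Y` has at most `A exp ((d + 1) T)` points
with `h(p) ≤ T`. -/
def Grow (K : Type u) [Field K] [NumberField K] (d : ℕ) (α : ℝ) : Prop :=
  ∀ (ι : Type) [Fintype ι] (J : Ideal (MvPolynomial ι K)), Smooth J d → ∀ δ : ℝ, 0 < δ →
    ∃ (G : MvPolynomial ι K) (A : ℝ), G ∉ J ∧ (∃ e, G.IsHomogeneous e) ∧ ∀ (T : ℝ) (S : Finset (ι → K)),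
      (∀ p ∈ S, IsPt J p ∧ eval p G ≠ 0 ∧ logHeight p ≤ T ∧ -hCan J p ≤ α * logHeight p) →
      (∀ p ∈ S, ∀ q ∈ S, (∃ a : K, q = a • p) → p = q) → (S.card : ℝ) ≤ A * Real.exp ((α + δ) * T)

end Pool.Agent.Lib.MP_17a322_nt.MG
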