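import Pool.Agent.Lib.MP_17a322_nt.MG.Defs
import Pool.Agent.Lib.MP_17a322_nt.MG.B2
import Pool.Agent.Lib.MP_17a322_nt.MG.C6
import Pool.Agent.Lib.MP_17a322_nt.MG.D1

/-!
From the number of the points to Vojta's conjecture with `D = 0`.
-/

set_option linter.unusedSectionVars false

universe u

namespace Pool.Agent.Lib.MP_17a322_nt.MG

open MvPolynomial Height NumberField
open Pool.Agent.Lib.MP_17a322_nt.EQ

/-- The bound with one exponent `α < r + 1` for the number of the points of the smooth projective varieties of dimension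
`n + r` implies Vojta's conjecture with `D = 0` for the smooth projective varieties of dimension `n`. -/
theorem zero_of_grow {K : Type u} [Field K] [NumberField K] {n r : ℕ} (hr : 1 ≤ r) {α : ℝ} (hα : 0 ≤ α)
    (hαr : α < r + 1) (h : Grow K (n + r) α) : VojtaZero K n := by
  intro ι _ J hJ ε hε
  obtain ⟨β, hβ⟩ : ∃ β : ℝ, β = r + 1 - α := ⟨_, rfl⟩
  have hβ0 : 0 < β := by linarith
  have hr0 : (0 : ℝ) < r + 1 := by positivity
  obtain ⟨δ, hδ⟩ : ∃ δ : ℝ, δ = min (β / 2) (ε * β / (2 * (r + 1))) := ⟨_, rfl⟩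
  have hδ0 : 0 < δ := by
    rw [hδ]
    positivity
  have hδ1 : δ ≤ β / 2 := hδ ▸ min_le_left _ _
  have hδ2 : δ * (r + 1) ≤ ε * (β / 2) := by
    have h1 : δ ≤ ε * β / (2 * (r + 1)) := hδ ▸ min_le_right _ _
    rw [le_div_iff₀ (by positivity)] at h1
    linarith
  obtain ⟨F, A, hF, ⟨e, hFe⟩, hA⟩ := h (ι × Fin (r + 1)) (qJ (Fin (r + 1)) J) (qJ_smooth hJ (Fintype.card_fin _)) δ hδ0
  obtain ⟨G, hG, hGe, hGQ⟩ := coef hFe hF
  obtain ⟨c, C₀, hc, hmany⟩ := many K hr e
  obtain ⟨B, hB⟩ : ∃ B : ℝ, B = Real.log (max A 1 / c) := ⟨_, rfl⟩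
  obtain ⟨C, hC⟩ : ∃ C : ℝ, C = max (β * C₀) (β * B / (β - δ)) := ⟨_, rfl⟩
  have hβδ : 0 < β - δ := by linarith
  refine ⟨G, C, hG, ⟨e, hGe⟩, fun p hp hpG => ?_⟩
  have hhp := logHeight_nonneg p
  obtain ⟨Q, hQ0, hQd, hQ⟩ := hGQ K p hpG
  obtain ⟨b, hb⟩ : ∃ b : ℝ, b = (hCan J p + α * logHeight p) / β := ⟨_, rfl⟩
  have hbβ : b * β = hCan J p + α * logHeight p := by
    rw [hb, div_mul_cancel₀ _ hβ0.ne']
  rcases lt_or_ge b C₀ with hbC | hbC
  · have h1 : b * β ≤ C₀ * β := mul_le_mul_of_nonneg_right hbC.le hβ0.le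
    have h2 : β * C₀ ≤ C := hC ▸ le_max_left _ _
    have h3 : 0 ≤ α * logHeight p := mul_nonneg hα hhp
    have h4 : 0 ≤ ε * logHeight p := mul_nonneg hε.le hhp
    linarith
  obtain ⟨S, hS, hSp, hcard⟩ := hmany b hbC Q hQ0 hQd
  obtain ⟨i, hi⟩ := Function.ne_iff.1 hp.1
  have hi0 : p i ≠ 0 := hi
  have hinj : ∀ u u' : Fin (r + 1) → K, ∀ a : K, sg p u' = a • sg p u → u' = a • u := by
    intro u u' a h1
    funext l
    have h2 := congrFun h1 (i, l)
    change p i * u' l = a * (p i * u l) at h2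
    change u' l = a * u l
    apply mul_left_cancel₀ hi0
    rw [h2]
    ring
  classical
  obtain ⟨S', hS'⟩ : ∃ S' : Finset (ι × Fin (r + 1) → K), S' = S.image fun u => sg p u := ⟨_, rfl⟩
  have hS'card : S'.card = S.card := by
    rw [hS']
    refine Finset.card_image_of_injOn fun u _ u' _ huu => ?_
    have h1 := hinj u u' 1 (by rw [one_smul]; exact huu.symm)
    rw [one_smul] at h1
    exact h1.symm
  have h1 := hA (logHeight p + b) S' (by
    intro y hy
    rw [hS', Finset.mem_image] at hy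
    obtain ⟨u, hu, rfl⟩ := hy
    obtain ⟨hu0, huT, huQ⟩ := hS u hu
    have h2 := lh_sg hp.1 hu0
    refine ⟨qJ_IsPt hp hu0, ?_, ?_, ?_⟩
    · have h3 := hQ u
      rw [h3, aeval_eq_eval] at huQ
      exact huQ
    · rw [h2]
      linarith
    · have h3 := hCan_qJ hJ hp hu0
      rw [h2]
      have h4 : logHeight u * β ≤ b * β := mul_le_mul_of_nonneg_right huT hβ0.le
      rw [hbβ, hβ] at h4
      linarith) (by
    intro y hy y' hy' ⟨a, ha⟩
    rw [hS', Finset.mem_image] at hy hy'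
    obtain ⟨u, hu, rfl⟩ := hy
    obtain ⟨u', hu', rfl⟩ := hy'
    rw [hSp u hu u' hu' ⟨a, hinj u u' a ha⟩])
  rw [hS'card] at h1
  have h2 : c * Real.exp ((r + 1) * b) ≤ max A 1 * Real.exp ((α + δ) * (logHeight p + b)) :=
    hcard.trans (h1.trans (mul_le_mul_of_nonneg_right (le_max_left _ _) (Real.exp_pos _).le))
  have hA1 : 0 < max A 1 := lt_of_lt_of_le one_pos (le_max_right _ _)
  have h3 : (r + 1) * b ≤ B + (α + δ) * (logHeight p + b) := by
    have h4 : Real.exp ((r + 1) * b) ≤ Real.exp (B + (α + δ) * (logHeight p + b)) := by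
      rw [Real.exp_add, hB, Real.exp_log (by positivity), div_mul_eq_mul_div, le_div_iff₀ hc]
      linarith
    exact Real.exp_le_exp.1 h4
  have h4 : (β - δ) * b ≤ B + (α + δ) * logHeight p := by
    rw [hβ]
    linarith
  have h5 : (β - δ) * hCan J p ≤ (β - δ) * (ε * logHeight p) + β * B := by
    have h6 : (β - δ) * (b * β) ≤ β * (B + (α + δ) * logHeight p) := by
      have := mul_le_mul_of_nonneg_left h4 hβ0.le
      linarith
    rw [hbβ] at h6
    have h7 : δ * (r + 1) * logHeight p ≤ ε * (β - δ) * logHeight p := by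
      refine mul_le_mul_of_nonneg_right (hδ2.trans ?_) hhp
      exact mul_le_mul_of_nonneg_left (by linarith) hε.le
    have h8 : (r : ℝ) + 1 = α + β := by
      rw [hβ]
      ring
    rw [h8] at h7
    nlinarith
  have h6 : hCan J p ≤ ε * logHeight p + β * B / (β - δ) := by
    have h7 : (β - δ) * (β * B / (β - δ)) = β * B := by
      field_simp
    by_contra hcon
    push Not at hcon
    have h8 := mul_lt_mul_of_pos_left hcon hβδ
    rw [mul_add, h7] at h8
    linarith
  have h7 : β * B / (β - δ) ≤ C := hC ▸ le_max_right _ _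
  linarith

end Pool.Agent.Lib.MP_17a322_nt.MG
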