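import Pool.Agent.Lib.MP_17a322_nt.MG.Defs
import Pool.Agent.Lib.MP_17a322_nt.MG.B2
import Pool.Agent.Lib.MP_17a322_nt.MG.C6
import Pool.Agent.Lib.MP_17a322_nt.MG.D1
import Pool.Agent.Lib.MP_17a322_nt.BI.Y8

/-!
From the number of the points in a high dimension to the number of the points in a lower dimension.
-/

set_option linter.unusedSectionVars false

universe u

namespace Pool.Agent.Lib.MP_17a322_nt.MG

open MvPolynomial Height NumberField
open Pool.Agent.Lib.MP_17a322_nt.EQ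

/-- The points in a shell. -/
theorem grow_shell {K : Type u} [Field K] [NumberField K] {ι : Type} [Fintype ι] {J : Ideal (MvPolynomial ι K)}
    {n r : ℕ} (hr : 1 ≤ r) (hJ : Smooth J n) {α α' δ : ℝ} (hαα : α' < α) (hαr : α < r + 1)
    (h : ∃ (G : MvPolynomial (ι × Fin (r + 1)) K) (A : ℝ), G ∉ qJ (Fin (r + 1)) J ∧ (∃ e, G.IsHomogeneous e) ∧
      ∀ (T : ℝ) (S : Finset (ι × Fin (r + 1) → K)),
      (∀ p ∈ S, IsPt (qJ (Fin (r + 1)) J) p ∧ eval p G ≠ 0 ∧ logHeight p ≤ T ∧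
        -hCan (qJ (Fin (r + 1)) J) p ≤ α * logHeight p) →
      (∀ p ∈ S, ∀ q ∈ S, (∃ a : K, q = a • p) → p = q) → (S.card : ℝ) ≤ A * Real.exp ((α + δ) * T)) :
    ∃ (G : MvPolynomial ι K) (B x₀ : ℝ), G ∉ J ∧ (∃ e, G.IsHomogeneous e) ∧ 0 < B ∧ ∀ (x : ℝ) (S : Finset (ι → K)),
      x₀ ≤ x → (∀ p ∈ S, IsPt J p ∧ eval p G ≠ 0 ∧ x ≤ logHeight p ∧ logHeight p ≤ x + 1 ∧
        -hCan J p ≤ α' * logHeight p) →
      (∀ p ∈ S, ∀ q ∈ S, (∃ a : K, q = a • p) → p = q) →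
      (S.card : ℝ) ≤ B * Real.exp ((α' + δ * ((r + 1 - α') / (r + 1 - α))) * x) := by
  obtain ⟨F, A, hF, ⟨e, hFe⟩, hA⟩ := h
  obtain ⟨β, hβ⟩ : ∃ β : ℝ, β = r + 1 - α := ⟨_, rfl⟩
  have hβ0 : 0 < β := by linarith
  obtain ⟨γ, hγ⟩ : ∃ γ : ℝ, γ = α - α' := ⟨_, rfl⟩
  have hγ0 : 0 < γ := by linarith
  obtain ⟨G, hG, hGe, hGQ⟩ := coef hFe hF
  obtain ⟨c, C₀, hc, hmany⟩ := many K hr e
  have hA1 : 0 < max A 1 := lt_of_lt_of_le one_pos (le_max_right _ _)
  refine ⟨G, max A 1 / c * Real.exp (α + δ), C₀ * β / γ, hG, ⟨e, hGe⟩, by positivity, fun x S hx hS hinj => ?_⟩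
  obtain ⟨b, hb⟩ : ∃ b : ℝ, b = γ * x / β := ⟨_, rfl⟩
  have hbβ : b * β = γ * x := by
    rw [hb, div_mul_cancel₀ _ hβ0.ne']
  have hbC : C₀ ≤ b := by
    rw [hb, le_div_iff₀ hβ0]
    rw [div_le_iff₀ hγ0] at hx
    linarith
  classical
  have hU : ∀ p : ι → K, ∃ U : Finset (Fin (r + 1) → K), p ∈ S → (∀ u ∈ U, u ≠ 0 ∧ logHeight u ≤ b ∧
      eval (sg p u) F ≠ 0) ∧ (∀ u ∈ U, ∀ u' ∈ U, (∃ a : K, u' = a • u) → u = u') ∧
      c * Real.exp ((r + 1) * b) ≤ U.card := by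
    intro p
    by_cases hp : p ∈ S
    · obtain ⟨hp1, hp2, -⟩ := hS p hp
      obtain ⟨Q, hQ0, hQd, hQ⟩ := hGQ K p hp2
      obtain ⟨U, hU1, hU2, hU3⟩ := hmany b hbC Q hQ0 hQd
      refine ⟨U, fun _ => ⟨fun u hu => ?_, hU2, hU3⟩⟩
      obtain ⟨h1, h2, h3⟩ := hU1 u hu
      refine ⟨h1, h2, ?_⟩
      rw [hQ u, aeval_eq_eval] at h3
      exact h3
    · exact ⟨∅, fun h1 => absurd h1 hp⟩
  choose U hU using hU
  obtain ⟨S', hS'⟩ : ∃ S' : Finset (ι × Fin (r + 1) → K), S' = (S.sigma U).image fun z => sg z.1 z.2 := ⟨_, rfl⟩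
  have hprop : ∀ p ∈ S, ∀ p' ∈ S, ∀ u ∈ U p, ∀ u' ∈ U p', ∀ a : K, sg p' u' = a • sg p u → p = p' ∧ u = u' := by
    intro p hp p' hp' u hu u' hu' a h1
    obtain ⟨l, hl⟩ := Function.ne_iff.1 (((hU p' hp').1 u' hu').1)
    have hl0 : u' l ≠ 0 := hl
    have hpp : p = p' := by
      refine hinj p hp p' hp' ⟨a * u l * (u' l)⁻¹, ?_⟩
      funext i
      have h2 := congrFun h1 (i, l)
      change p' i * u' l = a * (p i * u l) at h2
      change p' i = a * u l * (u' l)⁻¹ * p i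
      rw [eq_comm, mul_comm _ (p i), ← mul_assoc, ← div_eq_mul_inv, div_eq_iff hl0, h2]
      ring
    subst hpp
    refine ⟨rfl, (hU p hp).2.1 u hu u' hu' ⟨a, ?_⟩⟩
    obtain ⟨i, hi⟩ := Function.ne_iff.1 (hS p hp).1.1
    have hi0 : p i ≠ 0 := hi
    funext l'
    have h2 := congrFun h1 (i, l')
    change p i * u' l' = a * (p i * u l') at h2
    change u' l' = a * u l'
    apply mul_left_cancel₀ hi0
    rw [h2]
    ring
  have hcard : (S.card : ℝ) * (c * Real.exp ((r + 1) * b)) ≤ S'.card := by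
    have h1 : S'.card = ∑ p ∈ S, (U p).card := by
      rw [hS', Finset.card_image_of_injOn, Finset.card_sigma]
      rintro ⟨p, u⟩ hz ⟨p', u'⟩ hz' hzz
      rw [Finset.mem_coe, Finset.mem_sigma] at hz hz'
      obtain ⟨h2, h3⟩ := hprop p hz.1 p' hz'.1 u hz.2 u' hz'.2 1 (by rw [one_smul]; exact hzz.symm)
      subst h2
      subst h3
      rfl
    rw [h1]
    push_cast
    rw [← nsmul_eq_mul]
    exact Finset.card_nsmul_le_sum S _ _ fun p hp => (hU p hp).2.2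
  have h1 := hA (x + 1 + b) S' (by
    intro y hy
    rw [hS', Finset.mem_image] at hy
    obtain ⟨⟨p, u⟩, hz, rfl⟩ := hy
    rw [Finset.mem_sigma] at hz
    obtain ⟨hp1, hp2, hp3, hp4, hp5⟩ := hS p hz.1
    obtain ⟨hu0, huT, huF⟩ := (hU p hz.1).1 u hz.2
    have h2 := lh_sg hp1.1 hu0
    refine ⟨qJ_IsPt hp1 hu0, huF, ?_, ?_⟩
    · change logHeight (sg p u) ≤ _
      rw [h2]
      linarith
    · have h3 := hCan_qJ hJ hp1 hu0
      change -hCan (qJ (Fin (r + 1)) J) (sg p u) ≤ α * logHeight (sg p u)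
      rw [h2]
      have h4 : logHeight u * β ≤ b * β := mul_le_mul_of_nonneg_right huT hβ0.le
      have h5 : γ * x ≤ γ * logHeight p := mul_le_mul_of_nonneg_left hp3 hγ0.le
      rw [hbβ] at h4
      rw [hβ] at h4
      rw [hγ] at h4 h5
      linarith) (by
    intro y hy y' hy' ⟨a, ha⟩
    rw [hS', Finset.mem_image] at hy hy'
    obtain ⟨⟨p, u⟩, hz, rfl⟩ := hy
    obtain ⟨⟨p', u'⟩, hz', rfl⟩ := hy'
    rw [Finset.mem_sigma] at hz hz'
    obtain ⟨h2, h3⟩ := hprop p hz.1 p' hz'.1 u hz.2 u' hz'.2 a ha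
    rw [h2, h3])
  have h2 : (S.card : ℝ) * (c * Real.exp ((r + 1) * b)) ≤ max A 1 * Real.exp ((α + δ) * (x + 1 + b)) :=
    hcard.trans (h1.trans (mul_le_mul_of_nonneg_right (le_max_left _ _) (Real.exp_pos _).le))
  have h3 : Real.exp ((α + δ) * (x + 1 + b)) = Real.exp (α + δ) *
      Real.exp ((α' + δ * ((r + 1 - α') / (r + 1 - α))) * x) * Real.exp ((r + 1) * b) := by
    rw [← Real.exp_add, ← Real.exp_add]
    congr 1
    rw [hb, ← hβ]
    have h4 : (r : ℝ) + 1 - α' = β + γ := by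
      rw [hβ, hγ]
      ring
    have h5 : (r : ℝ) + 1 = α + β := by
      rw [hβ]
      ring
    have h6 : α = α' + γ := by
      rw [hγ]
      ring
    rw [h4, h5, h6]
    field_simp
    ring
  rw [h3] at h2
  have h4 : 0 < c * Real.exp ((r + 1) * b) := by positivity
  have h5 : (S.card : ℝ) * (c * Real.exp ((r + 1) * b)) ≤
      (max A 1 / c * Real.exp (α + δ) * Real.exp ((α' + δ * ((r + 1 - α') / (r + 1 - α))) * x)) *
        (c * Real.exp ((r + 1) * b)) := by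
    refine h2.trans (le_of_eq ?_)
    field_simp
  exact le_of_mul_le_mul_right h5 h4

/-- The bound with one exponent `α < r + 1` for the number of the points of the smooth projective varieties of dimension
`n + r` implies the bound for the smooth projective varieties of dimension `n`, with all exponents `α' < α`. -/
theorem grow_of_grow {K : Type u} [Field K] [NumberField K] {n r : ℕ} (hr : 1 ≤ r) {α α' : ℝ} (hα' : 0 ≤ α')
    (hαα : α' < α) (hαr : α < r + 1) (h : Grow K (n + r) α) : Grow K n α' := by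
  intro ι _ J hJ δ' hδ'
  obtain ⟨l, hl⟩ : ∃ l : ℝ, l = (r + 1 - α') / (r + 1 - α) := ⟨_, rfl⟩
  have hl0 : 0 < l := by
    rw [hl]
    exact div_pos (by linarith) (by linarith)
  obtain ⟨δ, hδ⟩ : ∃ δ : ℝ, δ = δ' / (2 * l) := ⟨_, rfl⟩
  have hδ0 : 0 < δ := by
    rw [hδ]
    positivity
  have hδl : δ * l = δ' / 2 := by
    rw [hδ]
    field_simp
  obtain ⟨G, B, x₀, hG, hGe, hB, hsh⟩ := grow_shell hr hJ (α' := α') hαα hαr
    (h (ι × Fin (r + 1)) (qJ (Fin (r + 1)) J) (qJ_smooth hJ (Fintype.card_fin _)) δ hδ0)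
  rw [← hl, hδl] at hsh
  obtain ⟨j₀, hj₀⟩ := exists_nat_ge x₀
  obtain ⟨N, hN⟩ := BI.northcott K ι j₀
  obtain ⟨M, hM⟩ : ∃ M : ℝ, M = max 1 (2 / δ') := ⟨_, rfl⟩
  have hM1 : 1 ≤ M := hM ▸ le_max_left _ _
  have hM2 : 2 / δ' ≤ M := hM ▸ le_max_right _ _
  refine ⟨G, N + B * M, hG, hGe, fun T S hS hinj => ?_⟩
  have hM0 : 0 < M := by linarith
  rcases S.eq_empty_or_nonempty with rfl | ⟨p₀, hp₀⟩
  · rw [Finset.card_empty, Nat.cast_zero]
    positivity
  have hT : 0 ≤ T := (logHeight_nonneg p₀).trans (hS p₀ hp₀).2.2.1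
  classical
  -- the points of small height
  obtain ⟨S₁, hS₁⟩ : ∃ S₁ : Finset (ι → K), S₁ = S.filter fun p => logHeight p ≤ j₀ := ⟨_, rfl⟩
  obtain ⟨S₂, hS₂⟩ : ∃ S₂ : ℕ → Finset (ι → K), S₂ = fun j => S.filter fun p => j₀ ≤ j ∧ ⌊logHeight p⌋₊ = j := ⟨_, rfl⟩
  have hc1 : (S₁.card : ℝ) ≤ N := by
    refine Nat.cast_le.2 (hN S₁ (fun p hp => ?_) fun p hp q hq h1 => ?_)
    · rw [hS₁, Finset.mem_filter] at hp
      exact ⟨(hS p hp.1).1.1, hp.2⟩
    · rw [hS₁, Finset.mem_filter] at hp hq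
      exact hinj p hp.1 q hq.1 h1
  have hc2 : ∀ j ∈ Finset.range (⌊T⌋₊ + 1), ((S₂ j).card : ℝ) ≤ B * Real.exp ((α' + δ' / 2) * T) := by
    intro j hj
    rw [Finset.mem_range, Nat.lt_succ_iff] at hj
    have hjT : (j : ℝ) ≤ T := (Nat.le_floor_iff hT).1 hj
    by_cases hjj : j₀ ≤ j
    · refine (hsh j (S₂ j) (hj₀.trans (by exact_mod_cast hjj)) (fun p hp => ?_) fun p hp q hq h1 => ?_).trans ?_
      · rw [hS₂, Finset.mem_filter] at hp
        obtain ⟨h1, h2, h3, h4⟩ := hS p hp.1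
        have h5 := Nat.floor_le (logHeight_nonneg p)
        have h6 := Nat.lt_floor_add_one (logHeight p)
        rw [hp.2.2] at h5 h6
        exact ⟨h1, h2, h5, h6.le, h4⟩
      · rw [hS₂, Finset.mem_filter] at hp hq
        exact hinj p hp.1 q hq.1 h1
      · refine mul_le_mul_of_nonneg_left (Real.exp_le_exp.2 ?_) hB.le
        exact mul_le_mul_of_nonneg_left hjT (by positivity)
    · have h1 : S₂ j = ∅ := by
        rw [hS₂]
        exact Finset.filter_eq_empty_iff.2 fun p _ h2 => hjj h2.1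
      rw [h1, Finset.card_empty, Nat.cast_zero]
      positivity
  have hcov : S ⊆ S₁ ∪ (Finset.range (⌊T⌋₊ + 1)).biUnion S₂ := by
    intro p hp
    rw [Finset.mem_union]
    by_cases h1 : logHeight p ≤ j₀
    · left
      rw [hS₁, Finset.mem_filter]
      exact ⟨hp, h1⟩
    · right
      push Not at h1
      rw [Finset.mem_biUnion]
      refine ⟨⌊logHeight p⌋₊, ?_, ?_⟩
      · rw [Finset.mem_range, Nat.lt_succ_iff]
        exact Nat.floor_le_floor (hS p hp).2.2.1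
      · rw [hS₂, Finset.mem_filter]
        exact ⟨hp, Nat.le_floor h1.le, rfl⟩
  have hc3 : (S.card : ℝ) ≤ N + (⌊T⌋₊ + 1 : ℕ) * (B * Real.exp ((α' + δ' / 2) * T)) := by
    have h1 : S.card ≤ S₁.card + ∑ j ∈ Finset.range (⌊T⌋₊ + 1), (S₂ j).card :=
      (Finset.card_le_card hcov).trans ((Finset.card_union_le _ _).trans
        (Nat.add_le_add_left Finset.card_biUnion_le _))
    have h2 : (S.card : ℝ) ≤ S₁.card + ∑ j ∈ Finset.range (⌊T⌋₊ + 1), ((S₂ j).card : ℝ) := by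
      exact_mod_cast h1
    refine h2.trans (add_le_add hc1 ?_)
    refine (Finset.sum_le_sum hc2).trans (le_of_eq ?_)
    rw [Finset.sum_const, Finset.card_range, nsmul_eq_mul]
  have hfl : ((⌊T⌋₊ + 1 : ℕ) : ℝ) ≤ M * Real.exp (δ' / 2 * T) := by
    have h1 := Real.add_one_le_exp (δ' / 2 * T)
    have h2 := Nat.floor_le hT
    push_cast
    have h3 : T ≤ M * (δ' / 2 * T) := by
      rw [div_le_iff₀ hδ'] at hM2
      have h4 : T * 2 ≤ T * (M * δ') := mul_le_mul_of_nonneg_left hM2 hT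
      linarith
    have h4 : M * (δ' / 2 * T + 1) ≤ M * Real.exp (δ' / 2 * T) := mul_le_mul_of_nonneg_left h1 hM0.le
    linarith
  have hone : 1 ≤ Real.exp ((α' + δ') * T) := Real.one_le_exp (mul_nonneg (by linarith) hT)
  calc (S.card : ℝ) ≤ N + (⌊T⌋₊ + 1 : ℕ) * (B * Real.exp ((α' + δ' / 2) * T)) := hc3
    _ ≤ N + M * Real.exp (δ' / 2 * T) * (B * Real.exp ((α' + δ' / 2) * T)) := by gcongr
    _ = N + B * M * Real.exp ((α' + δ') * T) := by
        have h1 : Real.exp ((α' + δ') * T) = Real.exp (δ' / 2 * T) * Real.exp ((α' + δ' / 2) * T) := by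
          rw [← Real.exp_add]
          congr 1
          ring
        rw [h1]
        ring
    _ ≤ N * Real.exp ((α' + δ') * T) + B * M * Real.exp ((α' + δ') * T) := by
        have h1 : (N : ℝ) * 1 ≤ N * Real.exp ((α' + δ') * T) := mul_le_mul_of_nonneg_left hone (Nat.cast_nonneg N)
        linarith
    _ = (N + B * M) * Real.exp ((α' + δ') * T) := by ring

end Pool.Agent.Lib.MP_17a322_nt.MG
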