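import Pool.Agent.Lib.MP_17a322_nt.MG.E1
import Pool.Agent.Lib.MP_17a322_nt.MG.E2
import Pool.Agent.Lib.MP_17a322_nt.EQ.Q7

/-!
From the number of the points to Vojta's conjecture.
-/

universe u

namespace Pool.Agent.Lib.MP_17a322_nt.MG

open Pool.Agent.Lib.MP_17a322_nt.EQ

/-- The bound with one exponent `α < r + 1` for the number of the points of the smooth projective varieties of dimension
`n + r` implies Vojta's conjecture. -/
theorem stairs (K : Type u) [Field K] [NumberField K] {r : ℕ} (hr : 1 ≤ r) {α : ℝ} (hα : 0 ≤ α) (hαr : α < r + 1)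
    (n : ℕ) : (Grow K (n + r) α → VojtaZero K n) ∧ (Grow K (n + 1 + r) α → Vojta K n) ∧
      (Grow K (n + 2 + r) α → VojtaTrunc K n) :=
  ⟨zero_of_grow hr hα hαr, fun h => (hz_main K n).1 (zero_of_grow hr hα hαr h),
    fun h => (hz_main K n).2.1 ((hz_main K (n + 1)).1 (zero_of_grow hr hα hαr h))⟩

/-- The staircase: every unit of the gain `d + 1 - α` over the trivial exponent `d + 1`, in one dimension `d`, is one
dimension of Vojta's conjecture, and of the bounds for the numbers of the points. -/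
theorem staircase (K : Type u) [Field K] [NumberField K] {d : ℕ} {α : ℝ} (hα : 0 ≤ α) (h : Grow K d α) (n : ℕ)
    (hn : n < d) :
    (α < d + 1 - n → VojtaZero K n ∧ ∀ α' : ℝ, 0 ≤ α' → α' < α → Grow K n α') ∧
      (n + 1 < d → α < d - n → Vojta K n) ∧ (n + 2 < d → α < d - 1 - n → VojtaTrunc K n) := by
  refine ⟨fun h1 => ?_, fun hd h1 => ?_, fun hd h1 => ?_⟩
  · obtain ⟨r, rfl⟩ : ∃ r, d = n + r := ⟨d - n, by omega⟩
    push_cast at h1
    exact ⟨(stairs K (r := r) (by omega) hα (by linarith) n).1 h,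
      fun α' h2 h3 => grow_of_grow (r := r) (by omega) h2 h3 (by linarith) h⟩
  · obtain ⟨r, rfl⟩ : ∃ r, d = n + 1 + r := ⟨d - (n + 1), by omega⟩
    refine (stairs K (r := r) (by omega) hα ?_ n).2.1 h
    push_cast at h1
    linarith
  · obtain ⟨r, rfl⟩ : ∃ r, d = n + 2 + r := ⟨d - (n + 2), by omega⟩
    refine (stairs K (r := r) (by omega) hα ?_ n).2.2 h
    push_cast at h1
    linarith

/-- Any unbounded gain over the trivial exponent, for an unbounded set of exponents, implies the bounds for all exponents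
in all dimensions. -/
theorem gain_iff (K : Type u) [Field K] [NumberField K] :
    (∀ M : ℝ, ∃ (d : ℕ) (α : ℝ), M ≤ α ∧ α + M ≤ d + 1 ∧ Grow K d α) ↔ ∀ (n : ℕ) (α : ℝ), 0 ≤ α → Grow K n α := by
  constructor
  · intro h n α' hα'
    obtain ⟨d, α, hα, hd, hG⟩ := h (max (α' + 1) (n + 2))
    have h1 : α' + 1 ≤ max (α' + 1) (n + 2) := le_max_left _ _
    have h2 : (n : ℝ) + 2 ≤ max (α' + 1) (n + 2) := le_max_right _ _
    have h3 : n < d := by
      have h4 : (n : ℝ) < d := by linarith
      exact_mod_cast h4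
    exact ((staircase K (by linarith) hG n h3).1 (by linarith)).2 α' hα' (by linarith)
  · intro h M
    obtain ⟨d, hd⟩ := exists_nat_ge (max M 0 + M)
    exact ⟨d, max M 0, le_max_left _ _, by linarith, h d _ (le_max_right _ _)⟩

/-- Any unbounded gain over the trivial exponent implies Vojta's conjecture in all dimensions. -/
theorem all_of_gain (K : Type u) [Field K] [NumberField K]
    (h : ∀ M : ℝ, ∃ (d : ℕ) (α : ℝ), 0 ≤ α ∧ α + M ≤ d + 1 ∧ Grow K d α) (n : ℕ) : Vojta K n ∧ VojtaTrunc K n := by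
  obtain ⟨d, α, hα, hd, hG⟩ := h (n + 4)
  have h1 : n + 2 < d := by
    have h2 : (n : ℝ) + 2 < d := by linarith
    exact_mod_cast h2
  obtain ⟨-, h2, h3⟩ := staircase K hα hG n (by omega)
  exact ⟨h2 (by omega) (by linarith), h3 h1 (by linarith)⟩

end Pool.Agent.Lib.MP_17a322_nt.MG
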